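import Pool.Agent.Results.MP_a49cf6_nt.DigitRecurrences

/-!
# Rational approximations from digits of small linear complexity, for several numbers in their own bases

Author: helper89. The lemmas on linear recurrences (a small integral relation by the box principle, division
by `X - b`, approximation) are those of helper47, helper928, helper639, helper45 (`S_SMALL`, `S_DESC`,
`S_APPROX`), the definitions those of the starting file `MP_a49cf6_nt.DigitRecurrences`.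
-/

set_option autoImplicit false

namespace Pool.Agent.V1189.DG

open Finset Polynomial
open Pool.Agent.H831R3.LC (W dig dig_abs)
open Pool.Agent.W47.JL
open Pool.Agent.Results.MP_a49cf6_nt.DigitRecurrences (digit Recurrence complexity F F_linear attained dig_abs)

/-- A recurrence of order `m` for the first `L` digits of `x` in base `b` gives a rational
approximation with denominator about `b ^ m` and precision about `b ^ (- L)`. -/
theorem exists_approx (b : ℕ) (hb : 2 ≤ b) (x : ℝ) (L m : ℕ) (c : ℕ → ℚ)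
    (hc : Recurrence (digit b x) c L m) :
    (L : ℝ) ≤ m + 15 * err m + 1 ∨ ∃ (q : ℕ) (p : ℤ), 1 ≤ q ∧
      Real.log q ≤ (m + 15 * err m) * Real.log b ∧
      |q * x - p| ≤ Real.exp ((m + 15 * err m) * Real.log b - L * Real.log b) := by
  obtain ⟨k0, K, hk0, hK, hpar⟩ := params m
  have hbR : (2 : ℝ) ≤ b := by exact_mod_cast hb
  have hb0 : (0 : ℝ) < b := by linarith
  have hpar1 : M1 b m k0 K ≤ m + 15 * err m := hpar b hbR
  have hM1 := M1_ge b m k0 K hb
  have hm0 : (0 : ℝ) ≤ m := Nat.cast_nonneg m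
  have hk00 : (0 : ℝ) ≤ k0 := Nat.cast_nonneg k0
  have hlb0 : 0 < Real.log b := Real.log_pos (by linarith)
  obtain ⟨X, hX⟩ : ∃ X : ℝ, X = ((m : ℝ) + k0 + 1) * (((m : ℝ) + 1 + k0) * b) ^ K := ⟨_, rfl⟩
  have hX0 : 0 < X := by rw [hX]; positivity
  have h8 : M1 b m k0 K * Real.log b = (m + k0) * Real.log b + Real.log X := by
    rw [M1, ← hX]
    field_simp
  by_cases hL : m + k0 ≤ L
  swap
  · left
    have : (L : ℝ) ≤ m + k0 := by exact_mod_cast (by omega : L ≤ m + k0)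
    linarith
  by_cases hbig : (m + k0 + 1) * ((m + 1 + k0) * b) ^ K * b < b ^ (L - (m + k0))
  swap
  · left
    push Not at hbig
    have h1 : ((b : ℝ) ^ (L - (m + k0))) ≤
        ((m : ℝ) + k0 + 1) * (((m : ℝ) + 1 + k0) * b) ^ K * b := by exact_mod_cast hbig
    have h2 := Real.log_le_log (by positivity) h1
    rw [Real.log_pow, Real.log_mul (by positivity) (by positivity)] at h2
    have h3 : ((L - (m + k0) : ℕ) : ℝ) = L - (m + k0) := by
      rw [Nat.cast_sub hL]; push_cast; ring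
    rw [h3] at h2
    have h4 : (L : ℝ) - (m + k0) ≤
        Real.log (((m : ℝ) + k0 + 1) * (((m : ℝ) + 1 + k0) * b) ^ K) / Real.log b + 1 := by
      rw [← sub_le_iff_le_add, le_div_iff₀ hlb0]
      linarith
    have h5 : (L : ℝ) ≤ M1 b m k0 K + 1 := by
      unfold M1
      linarith
    linarith
  right
  -- truncate
  obtain ⟨a, ha⟩ : ∃ a : Fin 1 → ℕ → ℤ, a = fun _ i => if i < L then digit b x (i + 1) else 0 :=
    ⟨_, rfl⟩
  have ha1 : ∀ j i, i < L → a j i = digit b x (i + 1) := by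
    intro j i hi
    rw [ha]; simp [hi]
  have ha2 : ∀ j i, |a j i| ≤ b := by
    intro j i
    by_cases hi : i < L
    · rw [ha1 j i hi]
      exact Pool.Agent.Results.MP_a49cf6_nt.DigitRecurrences.dig_abs b hb x _
    · rw [ha]; simp [hi]
  obtain ⟨t, ht0, htd, htH, htr⟩ := Pool.Agent.W928.JL.small 1 a b (by omega) ha2 m k0
    (L - (m + k0)) L K hk0 hK
    (by omega) c (fun j i hi => by
      rw [ha1 j _ hi, show i + m + 1 = i + 1 + m by ring, hc (i + 1) (by omega) (by omega)]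
      refine Finset.sum_congr rfl fun l hl => ?_
      rw [mem_range] at hl
      rw [ha1 j _ (by omega), show i + l + 1 = i + 1 + l by ring])
  obtain ⟨t', htd', htH', htr', ht0'⟩ := Pool.Agent.W639.JL.desc 1 a b b
    (((m + 1 + k0) * b) ^ K) (m + k0)
    (L - (m + k0)) hb ha2 hbig t htd ht0 htH htr
  obtain ⟨p, hp⟩ := Pool.Agent.W45.JL.approx x b (((m + 1 + k0) * b) ^ K) (L - (m + k0)) (m + k0)
    0 L (a 0) t' (by omega) htH' htd' (htr' 0) (fun i h1 h2 => ha1 0 i h2) (by omega) (by omega)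
  have hXe : (((m + k0 : ℕ) : ℝ) + 1) * (((m + 1 + k0) * b) ^ K : ℕ) = X := by
    rw [hX]; push_cast; ring
  rw [hXe, pow_zero, mul_one, Nat.sub_zero] at hp
  have heval := eval_le t' (((m + 1 + k0) * b) ^ K) (m + k0) b (by omega) htH' htd'
  have heval2 : |((t'.eval (b : ℤ) : ℤ) : ℝ)| ≤ X * (b : ℝ) ^ (m + k0) := by
    rw [← hXe]
    exact_mod_cast heval
  have hqR : (((t'.eval (b : ℤ)).natAbs : ℕ) : ℝ) = |((t'.eval (b : ℤ) : ℤ) : ℝ)| := by
    rw [Nat.cast_natAbs, Int.cast_abs]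
  have hq1 : 1 ≤ (t'.eval (b : ℤ)).natAbs := Int.natAbs_pos.2 ht0'
  have hsmall : ∃ p' : ℤ, |(((t'.eval (b : ℤ)).natAbs : ℕ) : ℝ) * x - p'| =
      |((t'.eval (b : ℤ) : ℤ) : ℝ) * x - p| := by
    rcases abs_cases ((t'.eval (b : ℤ) : ℤ) : ℝ) with ⟨h1, _⟩ | ⟨h1, _⟩
    · exact ⟨p, by rw [hqR, h1]⟩
    · refine ⟨-p, ?_⟩
      rw [hqR, h1, ← abs_neg]
      congr 1
      push_cast
      ring
  obtain ⟨p', hp'⟩ := hsmall
  refine ⟨(t'.eval (b : ℤ)).natAbs, p', hq1, ?_, ?_⟩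
  · have h1 : Real.log (((t'.eval (b : ℤ)).natAbs : ℕ) : ℝ) ≤
        Real.log (X * (b : ℝ) ^ (m + k0)) :=
      Real.log_le_log (by exact_mod_cast hq1) (by rw [hqR]; exact heval2)
    rw [Real.log_mul hX0.ne' (by positivity), Real.log_pow] at h1
    have h2 : M1 b m k0 K * Real.log b ≤ (m + 15 * err m) * Real.log b :=
      mul_le_mul_of_nonneg_right hpar1 hlb0.le
    push_cast at h1
    linarith
  · rw [hp']
    have hbp : (0 : ℝ) < (b : ℝ) ^ (L - (m + k0)) := by positivity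
    have h1 : |((t'.eval (b : ℤ) : ℤ) : ℝ) * x - p| ≤ X / (b : ℝ) ^ (L - (m + k0)) := by
      rw [le_div_iff₀ hbp]; exact hp
    refine h1.trans ?_
    have h3 : ((L - (m + k0) : ℕ) : ℝ) = L - (m + k0) := by
      rw [Nat.cast_sub hL]; push_cast; ring
    have h4 : X / (b : ℝ) ^ (L - (m + k0)) =
        Real.exp (Real.log X - (L - (m + k0)) * Real.log b) := by
      rw [Real.exp_sub, Real.exp_log hX0, ← h3, Real.exp_nat_mul, Real.exp_log hb0]
    rw [h4]
    apply Real.exp_le_exp.2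
    have h2 : M1 b m k0 K * Real.log b ≤ (m + 15 * err m) * Real.log b :=
      mul_le_mul_of_nonneg_right hpar1 hlb0.le
    linarith

/-- **Several numbers, each in its own base.** -/
theorem multi (μ c0 : ℝ) (hμ : 1 < μ) (hc0 : 0 < c0) (J : ℕ) (x : Fin J → ℝ)
    (hx : Pool.Agent.W47.JL.Meas J x μ c0 0) (b : Fin J → ℕ) (hb : ∀ j, 2 ≤ b j)
    (L : Fin J → ℕ) :
    ∃ j, L j * Real.log (b j) ≤
      μ * ∑ i, F 17 (complexity (b i) (x i) (L i)) * Real.log (b i) + |Real.log c0| := by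
  classical
  have hlb : ∀ j, 0 < Real.log (b j) := fun j =>
    Real.log_pos (by exact_mod_cast (by have := hb j; omega : 1 < b j))
  obtain ⟨m, hm⟩ : ∃ m : Fin J → ℕ, m = fun j => complexity (b j) (x j) (L j) := ⟨_, rfl⟩
  have hmj : ∀ j, complexity (b j) (x j) (L j) = m j := fun j => by rw [hm]
  have hF : ∀ j, (m j : ℝ) + 15 * err (m j) + 1 ≤ F 17 (m j) := by
    intro j
    have h1 := err_ge (m j)
    have h2 : F 17 (m j) = m j + 17 * err (m j) := rfl
    rw [h2]; linarith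
  have hF0 : ∀ j, 0 ≤ F 17 (m j) := by
    intro j
    have h1 := err_ge (m j)
    have h2 := hF j
    have h3 : (0 : ℝ) ≤ m j := Nat.cast_nonneg _
    linarith
  have hterm : ∀ j, 0 ≤ F 17 (m j) * Real.log (b j) := fun j => mul_nonneg (hF0 j) (hlb j).le
  have hsum0 : 0 ≤ ∑ i, F 17 (m i) * Real.log (b i) := Finset.sum_nonneg fun i _ => hterm i
  have hgoal : ∀ j, complexity (b j) (x j) (L j) = m j := hmj
  simp only [hgoal]
  have hall := fun j => attained (b j) (x j) (L j)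
  simp only [hgoal] at hall
  by_cases hcase : ∃ j, (L j : ℝ) ≤ m j + 15 * err (m j) + 1
  · obtain ⟨j, hj⟩ := hcase
    refine ⟨j, ?_⟩
    have h1 : L j * Real.log (b j) ≤ F 17 (m j) * Real.log (b j) :=
      mul_le_mul_of_nonneg_right (hj.trans (hF j)) (hlb j).le
    have h2 : F 17 (m j) * Real.log (b j) ≤ ∑ i, F 17 (m i) * Real.log (b i) :=
      Finset.single_le_sum (f := fun i => F 17 (m i) * Real.log (b i)) (fun i _ => hterm i)
        (mem_univ j)
    have h3 := abs_nonneg (Real.log c0)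
    nlinarith
  push Not at hcase
  have hex : ∀ j, ∃ (q : ℕ) (p : ℤ), 1 ≤ q ∧
      Real.log q ≤ (m j + 15 * err (m j)) * Real.log (b j) ∧
      |q * x j - p| ≤ Real.exp ((m j + 15 * err (m j)) * Real.log (b j) - L j * Real.log (b j)) := by
    intro j
    obtain ⟨c, hc⟩ := hall j
    rcases exists_approx (b j) (hb j) (x j) (L j) (m j) c hc with h | h
    · exact absurd h (not_le.2 (hcase j))
    · exact h
  choose q p hq1 hqlog hqx using hex
  have hqpos : ∀ j, (0 : ℝ) < q j := fun j => by exact_mod_cast hq1 j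
  obtain ⟨Q, hQ⟩ : ∃ Q : ℕ, Q = ∏ j, q j := ⟨_, rfl⟩
  have hQ1 : 1 ≤ Q := by
    rw [hQ]; exact Nat.one_le_iff_ne_zero.2 (Finset.prod_ne_zero_iff.2 fun j _ => by have := hq1 j; omega)
  obtain ⟨j, hj⟩ := hx Q hQ1 fun j => p j * ∏ i ∈ univ.erase j, (q i : ℤ)
  refine ⟨j, ?_⟩
  have hsplit : (Q : ℝ) = q j * ∏ i ∈ univ.erase j, (q i : ℝ) := by
    rw [hQ]; push_cast
    exact (Finset.mul_prod_erase univ (fun i => (q i : ℝ)) (mem_univ j)).symm
  obtain ⟨R, hR⟩ : ∃ R : ℝ, R = ∏ i ∈ univ.erase j, (q i : ℝ) := ⟨_, rfl⟩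
  have hRpos : 0 < R := by rw [hR]; exact Finset.prod_pos fun i _ => hqpos i
  rw [← hR] at hsplit
  have hval : (Q : ℝ) * x j - ((p j * ∏ i ∈ univ.erase j, (q i : ℤ) : ℤ) : ℝ) =
      R * (q j * x j - p j) := by
    push_cast
    rw [hsplit, ← hR]; ring
  rw [hval, abs_mul, abs_of_pos hRpos, Real.rpow_zero, mul_one] at hj
  have hQpos : (0 : ℝ) < Q := by exact_mod_cast hQ1
  have h1 : c0 ≤ (Q : ℝ) ^ (μ - 1) * (R * Real.exp ((m j + 15 * err (m j)) * Real.log (b j) -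
      L j * Real.log (b j))) :=
    hj.trans (mul_le_mul_of_nonneg_left (mul_le_mul_of_nonneg_left (hqx j) hRpos.le)
      (Real.rpow_nonneg hQpos.le _))
  have h2 := Real.log_le_log hc0 h1
  rw [Real.log_mul (Real.rpow_pos_of_pos hQpos _).ne' (by positivity), Real.log_rpow hQpos,
    Real.log_mul hRpos.ne' (Real.exp_pos _).ne', Real.log_exp] at h2
  obtain ⟨U, hU⟩ : ∃ U : Fin J → ℝ, U = fun j => (m j + 15 * err (m j)) * Real.log (b j) := ⟨_, rfl⟩
  have hUj : ∀ i, (m i + 15 * err (m i)) * Real.log (b i) = U i := fun i => by rw [hU]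
  have hlogR : Real.log R = ∑ i ∈ univ.erase j, Real.log (q i) := by
    rw [hR, Real.log_prod]
    intro i _; exact (hqpos i).ne'
  have hlogQ : Real.log Q = Real.log (q j) + Real.log R := by
    rw [hsplit, Real.log_mul (hqpos j).ne' hRpos.ne']
  have h3 : Real.log R ≤ ∑ i ∈ univ.erase j, U i := by
    rw [hlogR]
    exact Finset.sum_le_sum fun i _ => by rw [← hUj]; exact hqlog i
  have h4 : U j + ∑ i ∈ univ.erase j, U i = ∑ i, U i := Finset.add_sum_erase univ U (mem_univ j)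
  have h5 : Real.log Q ≤ ∑ i, U i := by
    have := hqlog j
    rw [hUj] at this
    linarith
  have h6 : ∑ i, U i ≤ ∑ i, F 17 (m i) * Real.log (b i) := by
    refine Finset.sum_le_sum fun i _ => ?_
    rw [← hUj]
    exact mul_le_mul_of_nonneg_right (by have := hF i; linarith) (hlb i).le
  rw [hUj] at h2
  have h7 : (μ - 1) * Real.log Q ≤ (μ - 1) * ∑ i, U i := mul_le_mul_of_nonneg_left h5 (by linarith)
  have h8 : μ * ∑ i, U i ≤ μ * ∑ i, F 17 (m i) * Real.log (b i) :=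
    mul_le_mul_of_nonneg_left h6 (by linarith)
  have h9 := neg_abs_le (Real.log c0)
  linarith

/-- linear form of the inequality -/
theorem multi_linear (μ₀ : ℝ) (hμ₀ : 2 ≤ μ₀) (J : ℕ) (P : (Fin J → ℝ) → Prop)
    (h : ∀ η : ℝ, 0 < η → ∃ c0 : ℝ, 0 < c0 ∧ ∀ x, P x → Pool.Agent.W47.JL.Meas J x (μ₀ + η) c0 0)
    (ε : ℝ) (hε : 0 < ε) :
    ∃ C : ℝ, 0 < C ∧ ∀ x, P x → ∀ b : Fin J → ℕ, (∀ j, 2 ≤ b j) → ∀ L : Fin J → ℕ,
      ∃ j, (1 / μ₀ - ε) * (L j * Real.log (b j)) ≤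
        ∑ i, ((complexity (b i) (x i) (L i) : ℝ) + C) * Real.log (b i) := by
  obtain ⟨c0, hc0, hm⟩ := h (ε / 2) (by linarith)
  obtain ⟨K, hK0, hK⟩ := F_linear 17 (ε / 2) (by norm_num) (by linarith)
  obtain ⟨C, hC⟩ : ∃ C : ℝ, C = K + 2 * |Real.log c0| + 1 := ⟨_, rfl⟩
  have hl0 := abs_nonneg (Real.log c0)
  have hC0 : 0 < C := by rw [hC]; linarith
  refine ⟨C, hC0, fun x hx b hb L => ?_⟩
  obtain ⟨j, hj⟩ := multi (μ₀ + ε / 2) c0 (by linarith) hc0 J x (hm x hx) b hb L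
  refine ⟨j, ?_⟩
  have hlb : ∀ j, 0.69 ≤ Real.log (b j) := by
    intro j
    have h1 := Real.log_two_gt_d9
    have h2 : Real.log 2 ≤ Real.log (b j) :=
      Real.log_le_log (by norm_num) (by exact_mod_cast hb j)
    linarith
  have hlb0 : ∀ j, 0 ≤ Real.log (b j) := fun j => by have := hlb j; linarith
  obtain ⟨S, hS⟩ : ∃ S : ℝ, S = ∑ i, (complexity (b i) (x i) (L i) : ℝ) * Real.log (b i) :=
    ⟨_, rfl⟩
  obtain ⟨B, hB⟩ : ∃ B : ℝ, B = ∑ i, Real.log (b i) := ⟨_, rfl⟩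
  have hS0 : 0 ≤ S := by
    rw [hS]; exact Finset.sum_nonneg fun i _ => mul_nonneg (Nat.cast_nonneg _) (hlb0 i)
  have hBj : 0.69 ≤ B := by
    rw [hB]
    exact (hlb j).trans (Finset.single_le_sum (f := fun i => Real.log (b i))
      (fun i _ => hlb0 i) (mem_univ j))
  have h1 : ∑ i, F 17 (complexity (b i) (x i) (L i)) * Real.log (b i) ≤ (1 + ε / 2) * S + K * B := by
    rw [hS, hB, Finset.mul_sum, Finset.mul_sum, ← Finset.sum_add_distrib]
    refine Finset.sum_le_sum fun i _ => ?_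
    have := mul_le_mul_of_nonneg_right (hK (complexity (b i) (x i) (L i))) (hlb0 i)
    linarith
  have h2 : ∑ i, ((complexity (b i) (x i) (L i) : ℝ) + C) * Real.log (b i) = S + C * B := by
    rw [hS, hB, Finset.mul_sum, ← Finset.sum_add_distrib]
    exact Finset.sum_congr rfl fun i _ => by ring
  rw [h2]
  obtain ⟨Λ, hΛ⟩ : ∃ Λ : ℝ, Λ = L j * Real.log (b j) := ⟨_, rfl⟩
  rw [← hΛ] at hj ⊢
  have hΛ0 : 0 ≤ Λ := by rw [hΛ]; exact mul_nonneg (Nat.cast_nonneg _) (hlb0 j)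
  rcases le_or_gt (1 / μ₀) ε with h3 | h3
  · have : (1 / μ₀ - ε) * Λ ≤ 0 := mul_nonpos_of_nonpos_of_nonneg (by linarith) hΛ0
    have : 0 ≤ C * B := mul_nonneg hC0.le (by linarith)
    linarith
  have hμ0 : 0 < μ₀ := by linarith
  obtain ⟨ν, hν⟩ : ∃ ν : ℝ, ν = 1 / μ₀ := ⟨_, rfl⟩
  have hν0 : 0 < ν := by rw [hν]; positivity
  have hν2 : ν ≤ 1 / 2 := by
    rw [hν]; exact one_div_le_one_div_of_le (by norm_num) hμ₀
  have hνμ : ν * μ₀ = 1 := by rw [hν]; field_simp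
  rw [← hν] at h3 ⊢
  have hκ0 : 0 < ν - ε := by linarith
  -- `(ν - ε) (μ₀ + ε/2) (1 + ε/2) ≤ 1`
  have hkey : (ν - ε) * (μ₀ + ε / 2) ≤ 1 - ε := by nlinarith
  have hkey1 : (ν - ε) * (μ₀ + ε / 2) * (1 + ε / 2) ≤ 1 := by
    have h4 : (1 - ε) * (1 + ε / 2) ≤ 1 := by nlinarith
    have h5 := mul_le_mul_of_nonneg_right hkey (by linarith : 0 ≤ 1 + ε / 2)
    linarith
  have hkey2 : (ν - ε) * (μ₀ + ε / 2) ≤ 1 := by linarith
  have hκ1 : ν - ε ≤ 1 := by linarith
  have h5 : (ν - ε) * Λ ≤ (ν - ε) * ((μ₀ + ε / 2) * ((1 + ε / 2) * S + K * B) + |Real.log c0|) := by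
    apply mul_le_mul_of_nonneg_left _ hκ0.le
    have := mul_le_mul_of_nonneg_left h1 (by linarith : 0 ≤ μ₀ + ε / 2)
    linarith
  have h6 : (ν - ε) * ((μ₀ + ε / 2) * ((1 + ε / 2) * S + K * B) + |Real.log c0|) =
      ((ν - ε) * (μ₀ + ε / 2) * (1 + ε / 2)) * S + ((ν - ε) * (μ₀ + ε / 2)) * (K * B) +
        (ν - ε) * |Real.log c0| := by ring
  have h7 : ((ν - ε) * (μ₀ + ε / 2) * (1 + ε / 2)) * S ≤ 1 * S :=
    mul_le_mul_of_nonneg_right hkey1 hS0
  have h8 : ((ν - ε) * (μ₀ + ε / 2)) * (K * B) ≤ 1 * (K * B) :=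
    mul_le_mul_of_nonneg_right hkey2 (mul_nonneg hK0 (by linarith))
  have h9 : (ν - ε) * |Real.log c0| ≤ 1 * |Real.log c0| := mul_le_mul_of_nonneg_right hκ1 hl0
  have h10 : |Real.log c0| ≤ 2 * |Real.log c0| * B := by nlinarith
  rw [hC]
  nlinarith

end Pool.Agent.V1189.DG
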