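import Pool.Agent.V1189.DG.ShiftLin

/-!
# Joint linear complexity and digit changes of two forms

Author: helper89. From the theorems `general`, `many_changes` of the starting file
`MP_a49cf6_nt.DigitRecurrences`.
-/

set_option autoImplicit false

namespace Pool.Agent.V1189.DG

open Finset
open Pool.Agent.W47.JL (Meas)
open Pool.Agent.Results.MP_a49cf6_nt.DigitRecurrences (digit Recurrence complexity jointComplexity
  F changes general many_changes)

/-- two forms, one base -/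
theorem form_joint (n : ℕ) (hn : 1 ≤ n) (k : Fin n → ℕ) (hk : Function.Injective k)
    (hk0 : ∀ i, k i ≠ 0) (H : ℕ) (hH : 1 ≤ H) (μ : ℝ) (hμ : (n : ℝ) + 1 < μ) :
    ∃ C : ℝ, 0 < C ∧ ∀ (t : ℝ) (A B A' B' : ℚ) (r r' : Fin n → ℚ),
      Low H A → Low H B → Low H A' → Low H B' → (∀ i, Low H (r i)) → (∀ i, Low H (r' i)) →
      (∃ i, A' * r i ≠ A * r' i) → ∀ b : ℕ, 2 ≤ b →
      (∀ l L : ℕ, (L : ℝ) ≤ (∑ m ∈ range (l + 1), μ ^ (m + 1)) *
        F C (jointComplexity b ![form k t A B r, form k t A' B' r'] l L)) ∧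
      ∀ M : ℕ, 1 ≤ M → Real.log M / Real.log μ - C ≤
        changes b (form k t A B r) (form k t A' B' r') M := by
  have hn1 : (1 : ℝ) ≤ n := by exact_mod_cast hn
  obtain ⟨η, hη⟩ : ∃ η : ℝ, η = min ((μ - (n + 1)) / 2) 1 := ⟨_, rfl⟩
  have hη0 : 0 < η := by rw [hη]; exact lt_min (by linarith) one_pos
  have hη1 : η ≤ 1 := by rw [hη]; exact min_le_right _ _
  have hη2 : η ≤ (μ - (n + 1)) / 2 := by rw [hη]; exact min_le_left _ _
  obtain ⟨c2, hc2, hm⟩ := form_meas n k hk hk0 η hη0 hη1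
  have hHR : (1 : ℝ) ≤ H := by exact_mod_cast hH
  have hc0 : 0 < c2 / (H : ℝ) ^ ((n + 3) * (2 * n + 4)) := by positivity
  have hμ' : (1 : ℝ) < n + 1 + η := by linarith
  have hμ'' : (n : ℝ) + 1 + η < μ := by linarith
  obtain ⟨C1, hC1, h3⟩ := general ((n : ℝ) + 1 + η) _ hμ' hc0
  obtain ⟨C2, h4⟩ := many_changes ((n : ℝ) + 1 + η) _ hμ' hc0 μ hμ''
  refine ⟨max C1 C2, lt_max_of_lt_left hC1, fun t A B A' B' r r' a1 a2 a3 a4 a5 a6 a7 b hb =>
    ⟨fun l L => ?_, fun M hM => ?_⟩⟩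
  · have h5 := (h3 2 _ (hm t H hH A B A' B' r r' a1 a2 a3 a4 a5 a6 a7) b hb L).1 l
    refine h5.trans ?_
    obtain ⟨N, hN⟩ : ∃ N, N = jointComplexity b ![form k t A B r, form k t A' B' r'] l L :=
      ⟨_, rfl⟩
    rw [← hN]
    have hs := Real.sqrt_nonneg (((N : ℝ) + 1) * Real.log ((N : ℝ) + 2))
    have hF : F C1 N ≤ F (max C1 C2) N := by
      unfold F
      have h6 := mul_le_mul_of_nonneg_right (le_max_left C1 C2) hs
      linarith
    refine mul_le_mul ?_ hF ?_ (Finset.sum_nonneg fun m _ => pow_nonneg (by linarith) _)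
    · refine Finset.sum_le_sum fun m _ => ?_
      exact pow_le_pow_left₀ (by linarith) hμ''.le _
    · unfold F; positivity
  · have h5 := h4 _ (hm t H hH A B A' B' r r' a1 a2 a3 a4 a5 a6 a7) b hb M hM
    simp only [Matrix.cons_val_zero, Matrix.cons_val_one] at h5
    have h6 := le_max_right C1 C2
    linarith

lemma low_one (H : ℕ) (hH : 1 ≤ H) : Low H 1 ∧ Low H (-1) ∧ Low H 0 := by
  refine ⟨⟨?_, ?_⟩, ⟨?_, ?_⟩, ⟨?_, ?_⟩⟩
  · simpa using hH
  · simpa using hH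
  · simpa using hH
  · simpa using hH
  · simp
  · simpa using hH

lemma form_one (t : ℝ) (A B C : ℚ) :
    form (fun _ : Fin 1 => 1) t A B (fun _ => C) = A * t + B + C * Real.exp 1 := by
  simp [form]

/-- the pair `π + e`, `π - e` -/
theorem pi_linear (ε : ℝ) (hε : 0 < ε) : ∃ C : ℝ, 0 < C ∧ ∀ b c : ℕ, 2 ≤ b → 2 ≤ c → ∀ L M : ℕ,
    (1 / 2 - ε) * min (L * Real.log b) (M * Real.log c) ≤
      ((complexity b (Real.pi + Real.exp 1) L : ℝ) + C) * Real.log b +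
        ((complexity c (Real.pi - Real.exp 1) M : ℝ) + C) * Real.log c := by
  obtain ⟨C, hC0, hC⟩ := form_linear 1 le_rfl (fun _ => 1) (fun i j _ => Subsingleton.elim i j)
    (fun _ => one_ne_zero) ε hε
  refine ⟨C, hC0, fun b c hb hc L M => ?_⟩
  obtain ⟨h1, h2, h3⟩ := low_one 1 le_rfl
  have h := hC Real.pi 1 le_rfl 1 0 1 0 (fun _ => 1) (fun _ => -1) h1 h3 h1 h3 (fun _ => h1)
    (fun _ => h2) ⟨0, by norm_num⟩ b c hb hc L M
  rw [form_one, form_one] at h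
  have e1 : ((1 : ℚ) : ℝ) * Real.pi + ((0 : ℚ) : ℝ) + ((1 : ℚ) : ℝ) * Real.exp 1 =
      Real.pi + Real.exp 1 := by push_cast; ring
  have e2 : ((1 : ℚ) : ℝ) * Real.pi + ((0 : ℚ) : ℝ) + ((-1 : ℚ) : ℝ) * Real.exp 1 =
      Real.pi - Real.exp 1 := by push_cast; ring
  have e3 : ((1 : ℕ) : ℝ) + 1 = 2 := by norm_num
  rw [e1, e2, e3, Nat.cast_one, Real.log_one, mul_zero, add_zero] at h
  exact h

end Pool.Agent.V1189.DG
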