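import Pool.Agent.V1189.DG.Pairs

/-!
# The four numbers at one scale

Author: helper89.
-/

set_option autoImplicit false

namespace Pool.Agent.V1189.DG

open Finset
open Pool.Agent.Results.MP_a49cf6_nt.DigitRecurrences (complexity)

/-- from the sum of two complexities to one of them -/
theorem scale_of (ν ε C : ℝ) (hε : 0 < ε) (hC : 0 < C) (P : ℝ → ℝ → Prop)
    (h : ∀ x y, P x y → ∀ b c : ℕ, 2 ≤ b → 2 ≤ c → ∀ L M : ℕ,
      (ν - ε) * min (L * Real.log b) (M * Real.log c) ≤
        ((complexity b x L : ℝ) + C) * Real.log b + ((complexity c y M : ℝ) + C) * Real.log c)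
    (hν : 0 < ν) :
    ∀ x y, P x y → ∀ b c : ℕ, 2 ≤ b → 2 ≤ c → ∀ (L M : ℕ) (Λ : ℝ),
      2 * C / ε * Real.log b < Λ → 2 * C / ε * Real.log c < Λ →
      Λ ≤ L * Real.log b → Λ ≤ M * Real.log c →
      (ν / 2 - ε) * Λ ≤ complexity b x L * Real.log b ∨
      (ν / 2 - ε) * Λ ≤ complexity c y M * Real.log c := by
  intro x y hxy b c hb hc L M Λ h1 h2 h3 h4
  have hlb : 0 < Real.log b := Real.log_pos (by exact_mod_cast (by omega : 1 < b))
  have hlc : 0 < Real.log c := Real.log_pos (by exact_mod_cast (by omega : 1 < c))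
  have hΛ : 0 < Λ := lt_of_le_of_lt (by positivity) h1
  rcases le_or_gt ν ε with h5 | h5
  · left
    have h6 : (ν / 2 - ε) * Λ ≤ 0 := mul_nonpos_of_nonpos_of_nonneg (by linarith) hΛ.le
    have h7 : (0 : ℝ) ≤ complexity b x L * Real.log b := by positivity
    linarith
  have h6 := h x y hxy b c hb hc L M
  have h7 : (ν - ε) * Λ ≤ (ν - ε) * min (L * Real.log b) (M * Real.log c) :=
    mul_le_mul_of_nonneg_left (le_min h3 h4) (by linarith)
  by_contra hcon
  push Not at hcon
  have h8 : 2 * C * Real.log b < ε * Λ := by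
    have : 2 * C / ε * Real.log b = 2 * C * Real.log b / ε := by ring
    rw [this, div_lt_iff₀ hε] at h1
    linarith
  have h9 : 2 * C * Real.log c < ε * Λ := by
    have : 2 * C / ε * Real.log c = 2 * C * Real.log c / ε := by ring
    rw [this, div_lt_iff₀ hε] at h2
    linarith
  nlinarith [hcon.1, hcon.2]

/-- if of any two indices in `s` one is good, all but at most one are good -/
theorem count (s : Finset (Fin 4)) (P : Fin 4 → Prop) [DecidablePred P] (n : ℕ) (hs : s.card = n + 1)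
    (h : ∀ i ∈ s, ∀ j ∈ s, i ≠ j → P i ∨ P j) : n ≤ (s.filter P).card := by
  have h1 := Finset.card_filter_add_card_filter_not (s := s) P
  have h2 : (s.filter fun i => ¬ P i).card ≤ 1 := by
    rw [Finset.card_le_one]
    intro i hi j hj
    rw [mem_filter] at hi hj
    by_contra hne
    rcases h i hi.1 j hj.1 hne with h3 | h3
    · exact hi.2 h3
    · exact hj.2 h3
  omega

/-- **three of the four numbers, each in its own base** -/
theorem three_of_four (ε : ℝ) (hε : 0 < ε) : ∃ K : ℝ, 0 < K ∧ ∀ b : Fin 4 → ℕ, (∀ i, 2 ≤ b i) →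
    ∀ (L : Fin 4 → ℕ) (Λ : ℝ), (∀ i, K * Real.log (b i) ≤ Λ) → (∀ i, Λ ≤ L i * Real.log (b i)) →
      3 ≤ (univ.filter fun i : Fin 4 => (1 / 6 - ε) * Λ ≤
        complexity (b i) (four Real.pi i) (L i) * Real.log (b i)).card ∧
      2 ≤ ((univ.filter fun i : Fin 4 => i ≠ 2).filter fun i : Fin 4 => (1 / 4 - ε) * Λ ≤
        complexity (b i) (four Real.pi i) (L i) * Real.log (b i)).card := by
  classical
  have hex : ∀ i j : Fin 4, ∃ C : ℝ, 0 < C ∧ (i ≠ j → ∀ b c : ℕ, 2 ≤ b → 2 ≤ c →
      ∀ L M : ℕ, (1 / expo i j - ε) * min (L * Real.log b) (M * Real.log c) ≤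
        ((complexity b (four Real.pi i) L : ℝ) + C) * Real.log b +
          ((complexity c (four Real.pi j) M : ℝ) + C) * Real.log c) := by
    intro i j
    by_cases hij : i = j
    · exact ⟨1, one_pos, fun h => absurd hij h⟩
    · obtain ⟨C, hC0, hC⟩ := four_linear i j hij 4 (1 / 10) ε (by norm_num) hε
      exact ⟨C, hC0, fun _ => hC Real.pi good_pi⟩
  choose C hC0 hC using hex
  obtain ⟨D, hD⟩ : ∃ D : ℝ, D = ∑ i, ∑ j, C i j := ⟨_, rfl⟩
  have hDC : ∀ i j, C i j ≤ D := by
    intro i j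
    rw [hD]
    exact (Finset.single_le_sum (f := fun j => C i j) (fun j _ => (hC0 i j).le) (mem_univ j)).trans
      (Finset.single_le_sum (f := fun i => ∑ j, C i j)
        (fun i _ => Finset.sum_nonneg fun j _ => (hC0 i j).le) (mem_univ i))
  have hD0 : 0 < D := (hC0 0 0).trans_le (hDC 0 0)
  refine ⟨2 * D / ε + 1, by positivity, fun b hb L Λ h1 h2 => ?_⟩
  have hlb : ∀ i, 0 < Real.log (b i) := fun i =>
    Real.log_pos (by exact_mod_cast (by have := hb i; omega : 1 < b i))
  have hΛ : 0 < Λ := lt_of_lt_of_le (by have := hlb 0; positivity) (h1 0)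
  have hK : ∀ i j k, 2 * C i j / ε * Real.log (b k) < Λ := by
    intro i j k
    refine lt_of_lt_of_le ?_ (h1 k)
    apply mul_lt_mul_of_pos_right _ (hlb k)
    have : 2 * C i j / ε ≤ 2 * D / ε := by
      apply div_le_div_of_nonneg_right _ hε.le
      linarith [hDC i j]
    linarith
  have hpair : ∀ i j : Fin 4, i ≠ j →
      (1 / (2 * expo i j) - ε) * Λ ≤ complexity (b i) (four Real.pi i) (L i) * Real.log (b i) ∨
      (1 / (2 * expo i j) - ε) * Λ ≤ complexity (b j) (four Real.pi j) (L j) * Real.log (b j) := by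
    intro i j hij
    have he := expo_ge i j
    have h3 := scale_of (1 / expo i j) ε (C i j) hε (hC0 i j)
      (fun x y => x = four Real.pi i ∧ y = four Real.pi j) (by
        rintro x y ⟨rfl, rfl⟩
        exact hC i j hij) (by positivity) _ _ ⟨rfl, rfl⟩ (b i) (b j) (hb i) (hb j) (L i) (L j) Λ
        (hK i j i) (hK i j j) (h2 i) (h2 j)
    have e : (1 : ℝ) / (2 * expo i j) = 1 / expo i j / 2 := by field_simp
    rwa [e]
  constructor
  · refine count univ _ 3 (by simp) fun i _ j _ hij => ?_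
    have h3 : (1 : ℝ) / 6 ≤ 1 / (2 * expo i j) := by
      unfold expo; split_ifs <;> norm_num
    have h4 : (1 / 6 - ε) * Λ ≤ (1 / (2 * expo i j) - ε) * Λ :=
      mul_le_mul_of_nonneg_right (by linarith) hΛ.le
    exact (hpair i j hij).imp h4.trans h4.trans
  · refine count _ _ 2 (by decide) fun i hi j hj hij => ?_
    rw [mem_filter] at hi hj
    have h3 : (1 : ℝ) / 4 ≤ 1 / (2 * expo i j) := by
      unfold expo
      rw [if_neg (by tauto)]
      norm_num
    have h4 : (1 / 4 - ε) * Λ ≤ (1 / (2 * expo i j) - ε) * Λ :=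
      mul_le_mul_of_nonneg_right (by linarith) hΛ.le
    exact (hpair i j hij).imp h4.trans h4.trans

end Pool.Agent.V1189.DG
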