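import Pool.Agent.V1189.DG.Changes
import Pool.Agent.Y926.TW.Main

/-!
# The digits of odd zeta values

Author: helper89. The theorem on the approximation of odd zeta values is that of the starting library
(`Pool.Agent.Y926.TW.main`, starting hand-in `MP_c2395a_nt.OddZetaTwoThirds`).
-/

set_option autoImplicit false

namespace Pool.Agent.V1189.DG

open Finset
open Pool.Agent.W47.JL (Meas)
open Pool.Agent.Results.MP_a49cf6_nt.DigitRecurrences (digit Recurrence complexity jointComplexity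
  F F_linear general)

/-- `ζ(j)` -/
noncomputable def zeta (j : ℕ) : ℝ := ∑' n : ℕ, 1 / ((n : ℝ) + 1) ^ j

/-- the odd numbers `j` with `B < j ≤ s` -/
def window (B s : ℕ) : Finset ℕ := (Icc (B + 1) s).filter fun j => Odd j

/-- the hypothesis on `s` -/
def Admissible (B K s S : ℕ) : Prop :=
  1 ≤ K ∧ 1 ≤ S ∧ (2 : ℝ) ^ (132 * S) * ((B : ℝ) + 1) ^ 2 * (K : ℝ) ^ 3 * Real.log (K + 1) ≤ (s : ℝ) ^ 2

/-- distance of an irrational number to the integers -/
lemma irr_dist (x : ℝ) (hx : Irrational x) : ∃ c : ℝ, 0 < c ∧ ∀ p : ℤ, c ≤ |x - p| := by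
  refine ⟨|x - round x|, ?_, fun p => round_le x p⟩
  rw [abs_pos, sub_ne_zero]
  exact hx.ne_int _

/-- a common bound for finitely many positive numbers -/
lemma common_pos {ι : Type*} (s : Finset ι) (c : ι → ℝ) (hc : ∀ i, 0 < c i) :
    ∃ d : ℝ, 0 < d ∧ d ≤ 1 ∧ ∀ i ∈ s, d ≤ c i := by
  classical
  have h0 : 0 ≤ ∑ i ∈ s, 1 / c i := Finset.sum_nonneg fun i _ => (one_div_pos.2 (hc i)).le
  refine ⟨1 / (1 + ∑ i ∈ s, 1 / c i), by positivity, ?_, fun i hi => ?_⟩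
  · rw [div_le_one (by linarith)]; linarith
  · have h1 : 1 / c i ≤ ∑ i ∈ s, 1 / c i :=
      Finset.single_le_sum (f := fun i => 1 / c i) (fun i _ => (one_div_pos.2 (hc i)).le) hi
    rw [div_le_iff₀ (by linarith)]
    have h2 : c i * (1 / c i) = 1 := by
      have := (hc i).ne'
      field_simp
    nlinarith [hc i]

/-- two sets which are too large to be disjoint -/
lemma meet {B s K n : ℕ} (j : Fin n → ℕ) (hj : Function.Injective j)
    (hjw : ∀ i, j i ∈ window B s) (hn : (window B s).card < n + K) (P : ℕ → Prop)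
    (hP : K ≤ Set.ncard {a : ℕ | B < a ∧ a ≤ s ∧ Odd a ∧ P a}) : ∃ i, P (j i) := by
  classical
  by_contra hcon
  push Not at hcon
  have h1 : {a : ℕ | B < a ∧ a ≤ s ∧ Odd a ∧ P a} =
      (((window B s).filter P : Finset ℕ) : Set ℕ) := by
    ext a
    simp only [window, Set.mem_setOf_eq, coe_filter, mem_filter, mem_Icc, Nat.succ_le_iff]
    tauto
  rw [h1, Set.ncard_coe_finset] at hP
  have h2 : Disjoint ((window B s).filter P) (univ.image j) := by
    rw [Finset.disjoint_left]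
    intro a ha hb
    rw [mem_image] at hb
    obtain ⟨i, _, rfl⟩ := hb
    exact hcon i (mem_filter.1 ha).2
  have h3 : ((window B s).filter P) ∪ univ.image j ⊆ window B s := by
    intro a ha
    rw [mem_union, mem_filter, mem_image] at ha
    rcases ha with h | ⟨i, _, rfl⟩
    · exact h.1
    · exact hjw i
  have h4 := Finset.card_le_card h3
  rw [Finset.card_union_of_disjoint h2, Finset.card_image_of_injective _ hj, Finset.card_univ,
    Fintype.card_fin] at h4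
  omega

/-- **the simultaneous measure** -/
theorem odd_meas (B K s S : ℕ) (h : Admissible B K s S) : ∃ c0 : ℝ, 0 < c0 ∧
    ∀ (n : ℕ) (j : Fin n → ℕ), Function.Injective j → (∀ i, j i ∈ window B s) →
      (window B s).card < n + K → Meas n (fun i => zeta (j i)) (1 + 1 / S) c0 0 := by
  classical
  obtain ⟨hK, hS, hyp⟩ := h
  obtain ⟨hirr, q0, hq0⟩ := Pool.Agent.Y926.TW.main B K s S hK hS hyp
  have hSR : (1 : ℝ) ≤ S := by exact_mod_cast hS
  have hex : ∀ a : ℕ × ℕ, ∃ c : ℝ, 0 < c ∧ (1 ≤ a.1 → Irrational (zeta a.2) →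
      ∀ p : ℤ, c ≤ |(a.1 : ℝ) * zeta a.2 - p|) := by
    intro a
    by_cases h1 : 1 ≤ a.1 ∧ Irrational (zeta a.2)
    · have h2 : Irrational ((a.1 : ℝ) * zeta a.2) := by
        have := h1.2.natCast_mul (m := a.1) (by omega)
        exact this
      obtain ⟨c, hc, h3⟩ := irr_dist _ h2
      exact ⟨c, hc, fun _ _ => h3⟩
    · exact ⟨1, one_pos, fun h2 h3 => absurd ⟨h2, h3⟩ h1⟩
  choose c hc hcp using hex
  obtain ⟨c0, hc0, hc01, hc0c⟩ := common_pos ((range q0) ×ˢ (window B s)) c hc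
  refine ⟨c0, hc0, fun n j hj hjw hn q hq p => ?_⟩
  have hqR : (1 : ℝ) ≤ q := by exact_mod_cast hq
  have hexp : (1 : ℝ) + 1 / S - 1 = 1 / S := by ring
  simp only [Real.rpow_zero, mul_one, hexp]
  have hqp : (1 : ℝ) ≤ (q : ℝ) ^ (1 / (S : ℝ)) := Real.one_le_rpow hqR (by positivity)
  rcases lt_or_ge q q0 with h1 | h1
  · obtain ⟨i, hi⟩ := meet j hj hjw hn
      (fun a => Irrational (∑' n : ℕ, 1 / ((n : ℝ) + 1) ^ a)) hirr
    refine ⟨i, ?_⟩
    have h2 : c0 ≤ |(q : ℝ) * zeta (j i) - p i| :=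
      (hc0c (q, j i) (by rw [mem_product, mem_range]; exact ⟨h1, hjw i⟩)).trans
        (hcp (q, j i) hq hi (p i))
    nlinarith [abs_nonneg ((q : ℝ) * zeta (j i) - p i)]
  · obtain ⟨i, hi⟩ := meet j hj hjw hn
      (fun a => ∀ p : ℤ, (q : ℝ) ^ (-(1 / (S : ℝ))) ≤
        |(q : ℝ) * (∑' n : ℕ, 1 / ((n : ℝ) + 1) ^ a) - p|) (hq0 q h1)
    refine ⟨i, ?_⟩
    have h2 : (q : ℝ) ^ (-(1 / (S : ℝ))) ≤ |(q : ℝ) * zeta (j i) - p i| := hi (p i)
    have h3 : (q : ℝ) ^ (1 / (S : ℝ)) * (q : ℝ) ^ (-(1 / (S : ℝ))) = 1 := by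
      rw [← Real.rpow_add (by linarith)]
      simp
    have h4 := mul_le_mul_of_nonneg_left h2 (by linarith : (0 : ℝ) ≤ (q : ℝ) ^ (1 / (S : ℝ)))
    linarith

/-- joint complexities -/
theorem odd_joint (B K s S : ℕ) (h : Admissible B K s S) : ∃ C : ℝ, 0 < C ∧
    ∀ (n : ℕ) (j : Fin n → ℕ), Function.Injective j → (∀ i, j i ∈ window B s) →
      (window B s).card < n + K → ∀ b : ℕ, 2 ≤ b → ∀ k L : ℕ,
        (L : ℝ) ≤ (∑ i ∈ range (k + 1), (1 + 1 / (S : ℝ)) ^ (i + 1)) *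
          F C (jointComplexity b (fun i => zeta (j i)) k L) := by
  obtain ⟨c0, hc0, hm⟩ := odd_meas B K s S h
  have hS : (0 : ℝ) < S := by exact_mod_cast h.2.1
  obtain ⟨C, hC0, hC⟩ := general (1 + 1 / S) c0 (by have : (0 : ℝ) < 1 / S := by positivity
                                                    linarith) hc0
  exact ⟨C, hC0, fun n j hj hjw hn b hb k L => (hC n _ (hm n j hj hjw hn) b hb L).1 k⟩

/-- joint linear complexity, linear form -/
theorem odd_joint_linear (B K s S : ℕ) (h : Admissible B K s S) (ε : ℝ) (hε : 0 < ε) :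
    ∃ L₀ : ℕ, ∀ (n : ℕ) (j : Fin n → ℕ), Function.Injective j → (∀ i, j i ∈ window B s) →
      (window B s).card < n + K → ∀ b : ℕ, 2 ≤ b → ∀ L : ℕ, L₀ ≤ L →
        ((S : ℝ) / (S + 1) - ε) * L ≤ jointComplexity b (fun i => zeta (j i)) 0 L := by
  obtain ⟨C, hC0, hC⟩ := odd_joint B K s S h
  have hS : (1 : ℝ) ≤ S := by exact_mod_cast h.2.1
  obtain ⟨D, hD0, hD⟩ := F_linear C (ε / 2) hC0 (by linarith)
  obtain ⟨L₀, hL₀⟩ := exists_nat_gt (2 * D / ε)
  refine ⟨L₀, fun n j hj hjw hn b hb L hL => ?_⟩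
  have h1 := hC n j hj hjw hn b hb 0 L
  obtain ⟨N, hN⟩ : ∃ N, N = jointComplexity b (fun i => zeta (j i)) 0 L := ⟨_, rfl⟩
  rw [← hN] at h1 ⊢
  have h2 : ∑ i ∈ range (0 + 1), (1 + 1 / (S : ℝ)) ^ (i + 1) = 1 + 1 / S := by simp
  rw [h2] at h1
  have h3 := hD N
  have hLR : (L₀ : ℝ) ≤ L := by exact_mod_cast hL
  have h4 : 2 * D / ε < L := hL₀.trans_le hLR
  rw [div_lt_iff₀ hε] at h4
  have hN0 : (0 : ℝ) ≤ N := Nat.cast_nonneg N
  have hL0 : (0 : ℝ) ≤ L := Nat.cast_nonneg L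
  obtain ⟨ν, hν⟩ : ∃ ν : ℝ, ν = (S : ℝ) / (S + 1) := ⟨_, rfl⟩
  have hν0 : 0 < ν := by rw [hν]; positivity
  have hν1 : ν ≤ 1 := by rw [hν, div_le_one (by linarith)]; linarith
  have hνμ : ν * (1 + 1 / (S : ℝ)) = 1 := by rw [hν]; field_simp
  rw [← hν]
  have h5 : ν * L ≤ (1 + ε / 2) * N + D := by
    have h6 := mul_le_mul_of_nonneg_left h1 hν0.le
    rw [← mul_assoc, hνμ, one_mul] at h6
    linarith
  rcases le_or_gt (N : ℝ) L with h7 | h7
  · nlinarith
  · nlinarith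

/-- own bases -/
theorem odd_own (B K s S : ℕ) (h : Admissible B K s S) (ε : ℝ) (hε : 0 < ε) :
    ∃ M : ℝ, 0 < M ∧ ∀ Λ : ℝ, K ≤ Set.ncard {j : ℕ | j ∈ window B s ∧
      ∀ b L : ℕ, 2 ≤ b → M * Real.log b ≤ Λ → Λ ≤ L * Real.log b →
        ((S : ℝ) / (S + 1) - ε) * Λ ≤
          (window B s).card * (complexity b (zeta j) L * Real.log b)} := by
  classical
  obtain ⟨c0, hc0, hm⟩ := odd_meas B K s S h
  have hS : (1 : ℝ) ≤ S := by exact_mod_cast h.2.1
  have hμ : (1 : ℝ) < 1 + 1 / S := by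
    have : (0 : ℝ) < 1 / S := by positivity
    linarith
  obtain ⟨D, hD0, hD⟩ := linear_any (1 + 1 / S) hμ (ε / 2) (by linarith)
  obtain ⟨ω, hω⟩ : ∃ ω : ℕ, ω = (window B s).card := ⟨_, rfl⟩
  have hl0 := abs_nonneg (Real.log c0)
  obtain ⟨M, hM⟩ : ∃ M : ℝ, M = 2 / ε * (ω * D + 2 * |Real.log c0|) + 1 := ⟨_, rfl⟩
  have hM0 : 0 < M := by rw [hM]; positivity
  refine ⟨M, hM0, fun Λ => ?_⟩
  obtain ⟨ν, hν⟩ : ∃ ν : ℝ, ν = (S : ℝ) / (S + 1) := ⟨_, rfl⟩
  have hνμ : 1 / (1 + 1 / (S : ℝ)) = ν := by rw [hν]; field_simp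
  rw [hνμ] at hD
  rw [← hν, ← hω]
  by_contra hcon
  push Not at hcon
  -- the bad set
  obtain ⟨P, hP⟩ : ∃ P : ℕ → Prop, P = fun j => ∀ b L : ℕ, 2 ≤ b → M * Real.log b ≤ Λ →
    Λ ≤ L * Real.log b → (ν - ε) * Λ ≤ ω * (complexity b (zeta j) L * Real.log b) := ⟨_, rfl⟩
  have hset : {j : ℕ | j ∈ window B s ∧ ∀ b L : ℕ, 2 ≤ b → M * Real.log b ≤ Λ →
      Λ ≤ L * Real.log b → (ν - ε) * Λ ≤ ω * (complexity b (zeta j) L * Real.log b)} =
      (((window B s).filter P : Finset ℕ) : Set ℕ) := by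
    ext a
    rw [hP]
    simp
  rw [hset, Set.ncard_coe_finset] at hcon
  obtain ⟨T, hT⟩ : ∃ T : Finset ℕ, T = (window B s).filter fun j => ¬ P j := ⟨_, rfl⟩
  have hcard : ((window B s).filter P).card + T.card = ω := by
    rw [hT, hω]
    exact Finset.card_filter_add_card_filter_not (s := window B s) P
  have hTP : ∀ j ∈ T, ∃ b L : ℕ, 2 ≤ b ∧ M * Real.log b ≤ Λ ∧ Λ ≤ L * Real.log b ∧
      ω * (complexity b (zeta j) L * Real.log b) < (ν - ε) * Λ := by
    intro j hj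
    rw [hT, mem_filter, hP] at hj
    have h1 := hj.2
    push Not at h1
    obtain ⟨b, L, h2, h3, h4, h5⟩ := h1
    exact ⟨b, L, h2, h3, h4, h5⟩
  obtain ⟨n, hn⟩ : ∃ n, n = T.card := ⟨_, rfl⟩
  obtain ⟨e⟩ : Nonempty (Fin n ≃ T) := ⟨(Fintype.equivFinOfCardEq (by simp [hn])).symm⟩
  have hj1 : Function.Injective (fun i => ((e i : T) : ℕ)) :=
    fun a b hab => e.injective (Subtype.ext hab)
  have hjT : ∀ i, ((e i : T) : ℕ) ∈ T := fun i => (e i).2
  have hTw : ∀ j ∈ T, j ∈ window B s := by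
    intro j hj
    rw [hT, mem_filter] at hj
    exact hj.1
  have hmeas := hm n (fun i => ((e i : T) : ℕ)) hj1 (fun i => hTw _ (hjT i)) (by omega)
  choose b L hb2 hMb hLb hN using fun i => hTP _ (hjT i)
  obtain ⟨i0, hi0⟩ := hD n _ c0 hc0 hmeas b hb2 L
  have hlb : ∀ i, 0.69 ≤ Real.log (b i) := by
    intro i
    have h1 := Real.log_two_gt_d9
    have h2 : Real.log 2 ≤ Real.log (b i) :=
      Real.log_le_log (by norm_num) (by exact_mod_cast hb2 i)
    linarith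
  have hΛ : 0 < Λ := lt_of_lt_of_le (mul_pos hM0 (by linarith [hlb i0])) (hMb i0)
  have hnR : (1 : ℝ) ≤ n := by
    have : 1 ≤ n := by have := i0.2; omega
    exact_mod_cast this
  have hnω : (n : ℝ) ≤ ω := by exact_mod_cast (by omega : n ≤ ω)
  have hω0 : (0 : ℝ) < ω := by linarith
  -- positivity of `ν - ε`
  have hνε : 0 < ν - ε := by
    by_contra hneg
    push Not at hneg
    have h1 := hN i0
    have h2 : (ν - ε) * Λ ≤ 0 := mul_nonpos_of_nonpos_of_nonneg hneg hΛ.le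
    have h3 : (0 : ℝ) ≤ ω * (complexity (b i0) (zeta ((e i0 : T) : ℕ)) (L i0) * Real.log (b i0)) := by
      have := hlb i0
      positivity
    linarith
  -- the sum
  have hterm : ∀ i, ((complexity (b i) (zeta ((e i : T) : ℕ)) (L i) : ℝ) + D) * Real.log (b i) ≤
      (ν - ε) * Λ / ω + D * (Λ / M) := by
    intro i
    have h1 : (complexity (b i) (zeta ((e i : T) : ℕ)) (L i) : ℝ) * Real.log (b i) ≤
        (ν - ε) * Λ / ω := by
      rw [le_div_iff₀ hω0]
      have := hN i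
      linarith
    have h2 : D * Real.log (b i) ≤ D * (Λ / M) := by
      apply mul_le_mul_of_nonneg_left _ hD0
      rw [le_div_iff₀ hM0]
      have := hMb i
      linarith
    linarith
  have hsum : ∑ i, ((complexity (b i) (zeta ((e i : T) : ℕ)) (L i) : ℝ) + D) * Real.log (b i) ≤
      (ν - ε) * Λ + ω * (D * (Λ / M)) := by
    refine (Finset.sum_le_sum fun i _ => hterm i).trans ?_
    rw [Finset.sum_const, card_univ, Fintype.card_fin, nsmul_eq_mul]
    have h1 : (0 : ℝ) ≤ (ν - ε) * Λ / ω + D * (Λ / M) := by positivity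
    have h2 := mul_le_mul_of_nonneg_right hnω h1
    have h3 : (ω : ℝ) * ((ν - ε) * Λ / ω + D * (Λ / M)) = (ν - ε) * Λ + ω * (D * (Λ / M)) := by
      field_simp
    linarith
  have hlow : (ν - ε / 2) * Λ ≤ (ν - ε / 2) * (L i0 * Real.log (b i0)) :=
    mul_le_mul_of_nonneg_left (hLb i0) (by linarith)
  have hc0M : |Real.log c0| ≤ 2 * |Real.log c0| * (Λ / M) := by
    have h1 : (0.5 : ℝ) ≤ Λ / M := by
      rw [le_div_iff₀ hM0]
      have h2 := hMb i0
      have h3 := hlb i0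
      nlinarith
    nlinarith
  have hfin : ε / 2 * Λ ≤ (ω * D + 2 * |Real.log c0|) * (Λ / M) := by linarith
  have hfin2 : (ω * D + 2 * |Real.log c0|) * (Λ / M) < ε / 2 * Λ := by
    have h1 : ω * D + 2 * |Real.log c0| < ε / 2 * M := by
      rw [hM]
      have h2 : ε / 2 * (2 / ε * (ω * D + 2 * |Real.log c0|) + 1) =
          ω * D + 2 * |Real.log c0| + ε / 2 := by field_simp
      rw [h2]; linarith
    have h3 : (ω * D + 2 * |Real.log c0|) * (Λ / M) < ε / 2 * M * (Λ / M) :=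
      mul_lt_mul_of_pos_right h1 (by positivity)
    have h4 : ε / 2 * M * (Λ / M) = ε / 2 * Λ := by field_simp
    linarith
  linarith

/-- digit changes -/
theorem odd_changes (B K s S : ℕ) (h : Admissible B K s S) (μ : ℝ) (hμ : 1 + 1 / (S : ℝ) < μ) :
    ∃ C : ℝ, ∀ (n : ℕ) (j : Fin n → ℕ), Function.Injective j → (∀ i, j i ∈ window B s) →
      (window B s).card < n + K → ∀ b : ℕ, 2 ≤ b → ∀ M : ℕ, 1 ≤ M →
        Real.log M / Real.log μ - C ≤ changesJ b (fun i => zeta (j i)) M := by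
  obtain ⟨c0, hc0, hm⟩ := odd_meas B K s S h
  have hS : (1 : ℝ) ≤ S := by exact_mod_cast h.2.1
  have hμ1 : (1 : ℝ) < 1 + 1 / S := by
    have : (0 : ℝ) < 1 / S := by positivity
    linarith
  obtain ⟨C, hC⟩ := many_changesJ (1 + 1 / S) c0 hμ1 hc0 μ hμ
  exact ⟨C, fun n j hj hjw hn b hb M hM => hC n _ (hm n j hj hjw hn) b hb M hM⟩

end Pool.Agent.V1189.DG
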