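import Pool.Agent.V1189.DG.Approx

/-!
# Digit changes of several numbers in one base

Author: helper89. The proofs are those of `stretch` and `many_changes` of the starting file
`MP_a49cf6_nt.DigitRecurrences` (two numbers), written for `J` numbers.
-/

set_option autoImplicit false

namespace Pool.Agent.V1189.DG

open Finset
open Pool.Agent.W47.JL (Meas)
open Pool.Agent.Results.MP_a49cf6_nt.DigitRecurrences (digit Recurrence complexity F F_linear joint
  dig_abs)

/-- the number of `i ≤ M` such that the `i`-th and `(i+1)`-st digits differ for one of the numbers -/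
noncomputable def changesJ {J : ℕ} (b : ℕ) (x : Fin J → ℝ) (M : ℕ) : ℕ :=
  ((Icc 1 M).filter fun i => ∃ j, digit b (x j) i ≠ digit b (x j) (i + 1)).card

lemma stretchJ (μ' c0 : ℝ) (hμ' : 1 < μ') (hc0 : 0 < c0) (μ : ℝ) (hμ : μ' < μ) :
    ∃ K : ℝ, 0 ≤ K ∧ ∀ (J : ℕ) (x : Fin J → ℝ), Meas J x μ' c0 0 → ∀ b : ℕ,
    2 ≤ b → ∀ N L : ℕ,
      (∀ i, N < i → i < L → ∀ j, digit b (x j) i = digit b (x j) (i + 1)) →
      (L : ℝ) ≤ μ * N + K := by
  obtain ⟨C, hC0, hC⟩ := joint μ' c0 hμ' hc0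
  obtain ⟨K, hK0, hK⟩ := F_linear C ((μ - μ') / μ') hC0 (by
    apply div_pos <;> linarith)
  refine ⟨μ + μ' * K, by nlinarith, fun J x hx b hb N L h => ?_⟩
  have key : ∀ a : ℕ → ℤ, (∀ i, N < i → i < L → a i = a (i + 1)) →
      Recurrence a (fun j => if j = N then 1 else 0) L (N + 1) := by
    intro a ha i h1 h2
    rw [Finset.sum_eq_single N]
    · beta_reduce
      rw [if_pos rfl, one_mul, ha (i + N) (by omega) (by omega)]
      rfl
    · intro j _ hj
      beta_reduce
      rw [if_neg hj, zero_mul]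
    · intro hN
      exact absurd (mem_range.mpr (by omega)) hN
  have h1 := hC J x hx b hb 0 L (N + 1) (fun j => digit b (x j)) _ (fun j => dig_abs b hb _)
    (by simp) (fun j => key _ fun i h2 h3 => h i h2 h3 j)
  have h2 := hK (N + 1)
  have h0 : ∑ i ∈ range (0 + 1), μ' ^ (i + 1) = μ' := by simp
  rw [h0] at h1
  push_cast at h2
  have h3 : 1 + (μ - μ') / μ' = μ / μ' := by field_simp; ring
  rw [h3] at h2
  have h4 := mul_le_mul_of_nonneg_left h2 (by linarith : 0 ≤ μ')
  have h5 : μ' * (μ / μ' * ((N : ℝ) + 1) + K) = μ * (N + 1) + μ' * K := by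
    field_simp
  rw [h5] at h4
  linarith

/-- many digit changes -/
theorem many_changesJ (μ' c0 : ℝ) (hμ' : 1 < μ') (hc0 : 0 < c0) (μ : ℝ) (hμ : μ' < μ) :
    ∃ C : ℝ, ∀ (J : ℕ) (x : Fin J → ℝ), Meas J x μ' c0 0 → ∀ b : ℕ,
    2 ≤ b → ∀ M : ℕ, 1 ≤ M → Real.log M / Real.log μ - C ≤ changesJ b x M := by
  classical
  obtain ⟨K, hK0, hK⟩ := stretchJ μ' c0 hμ' hc0 μ hμ
  have hμ1 : 0 < μ - 1 := by linarith
  obtain ⟨A, hA⟩ : ∃ A : ℝ, A = (K + μ) / (μ - 1) + K + μ + 1 := ⟨_, rfl⟩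
  have hA0 : K + μ ≤ A * (μ - 1) := by
    rw [hA]
    have h1 : (K + μ) / (μ - 1) * (μ - 1) = K + μ := div_mul_cancel₀ _ hμ1.ne'
    nlinarith
  have hA1 : 1 ≤ A := by
    rw [hA]
    have : 0 ≤ (K + μ) / (μ - 1) := by apply div_nonneg <;> linarith
    linarith
  have hA2 : K ≤ A := by
    rw [hA]
    have : 0 ≤ (K + μ) / (μ - 1) := by apply div_nonneg <;> linarith
    linarith
  have hmain : ∀ (J : ℕ) (x : Fin J → ℝ), Meas J x μ' c0 0 → ∀ b : ℕ, 2 ≤ b → ∀ M : ℕ,
      (M : ℝ) + A ≤ (2 * A) * μ ^ (changesJ b x M) := by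
    intro J x hx b hb M
    induction M using Nat.strong_induction_on with
    | _ M ih =>
      obtain ⟨D, hD⟩ : ∃ D : ℕ → Prop, D = fun i =>
        ∃ j, digit b (x j) i ≠ digit b (x j) (i + 1) := ⟨_, rfl⟩
      have hch : ∀ M, changesJ b x M = ((Icc 1 M).filter fun i => D i).card := by
        intro M
        unfold changesJ
        subst hD
        congr!
      by_cases hex : ∃ i, 1 ≤ i ∧ i ≤ M ∧ D i
      · -- the largest change
        have hne : ((Icc 1 M).filter fun i => D i).Nonempty := by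
          obtain ⟨i, h1, h2, h3⟩ := hex
          exact ⟨i, by rw [mem_filter, mem_Icc]; exact ⟨⟨h1, h2⟩, h3⟩⟩
        obtain ⟨N, hNdef⟩ : ∃ N, N = ((Icc 1 M).filter fun i => D i).max' hne := ⟨_, rfl⟩
        have hNmem := Finset.max'_mem _ hne
        rw [← hNdef, mem_filter, mem_Icc] at hNmem
        obtain ⟨⟨hN1, hNM⟩, hND⟩ := hNmem
        have hmax : ∀ i, N < i → i ≤ M → ¬ D i := by
          intro i h1 h2 h3
          have h4 := Finset.le_max' ((Icc 1 M).filter fun i => D i) i (by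
            rw [mem_filter, mem_Icc]; exact ⟨⟨by omega, h2⟩, h3⟩)
          omega
        have hlen := hK J x hx b hb N M (by
          intro i h1 h2 j
          have h3 := hmax i h1 h2.le
          rw [hD] at h3
          push Not at h3
          exact h3 j)
        have hih := ih (N - 1) (by omega)
        have hcard : changesJ b x (N - 1) + 1 ≤ changesJ b x M := by
          rw [hch, hch]
          have hsub : insert N ((Icc 1 (N - 1)).filter fun i => D i) ⊆
              (Icc 1 M).filter fun i => D i := by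
            intro i hi
            rw [mem_insert, mem_filter, mem_Icc] at hi
            rw [mem_filter, mem_Icc]
            rcases hi with h | ⟨⟨h1, h2⟩, h3⟩
            · rw [h]; exact ⟨⟨hN1, hNM⟩, hND⟩
            · exact ⟨⟨h1, by omega⟩, h3⟩
          have h5 := Finset.card_le_card hsub
          rw [Finset.card_insert_of_notMem (by
            intro h
            rw [mem_filter, mem_Icc] at h
            omega)] at h5
          exact h5
        have hμ0 : 1 ≤ μ := by linarith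
        have hpow : μ ^ (changesJ b x (N - 1) + 1) ≤ μ ^ (changesJ b x M) :=
          pow_le_pow_right₀ hμ0 hcard
        rw [pow_succ] at hpow
        have hN1R : ((N - 1 : ℕ) : ℝ) = N - 1 := by
          rw [Nat.cast_sub hN1]; push_cast; ring
        rw [hN1R] at hih
        have h6 : (M : ℝ) + A ≤ μ * ((N : ℝ) - 1 + A) := by nlinarith
        have h7 : μ * ((N : ℝ) - 1 + A) ≤ μ * (2 * A * μ ^ (changesJ b x (N - 1))) :=
          mul_le_mul_of_nonneg_left hih (by linarith)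
        have h8 := mul_le_mul_of_nonneg_left hpow (by linarith : 0 ≤ 2 * A)
        nlinarith
      · push Not at hex
        have hlen := hK J x hx b hb 0 M (by
          intro i h1 h2 j
          have h3 := hex i (by omega) h2.le
          rw [hD] at h3
          push Not at h3
          exact h3 j)
        rw [Nat.cast_zero, mul_zero, zero_add] at hlen
        have h1 : (1 : ℝ) ≤ μ ^ (changesJ b x M) := one_le_pow₀ (by linarith)
        have h2 := mul_le_mul_of_nonneg_left h1 (by linarith : 0 ≤ 2 * A)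
        linarith
  have hlμ : 0 < Real.log μ := Real.log_pos (by linarith)
  refine ⟨Real.log (2 * A) / Real.log μ, fun J x hx b hb M hM => ?_⟩
  have hMR : (1 : ℝ) ≤ M := by exact_mod_cast hM
  have h1 := hmain J x hx b hb M
  have h2 : (M : ℝ) ≤ (2 * A) * μ ^ (changesJ b x M) := by linarith
  have h3 := Real.log_le_log (by linarith) h2
  rw [Real.log_mul (by linarith) (pow_pos (by linarith : 0 < μ) _).ne', Real.log_pow] at h3
  rw [← sub_div, div_le_iff₀ hlμ]
  linarith

/-- sum of the complexities in own bases, any exponent `≥ 1` -/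
theorem linear_any (μ : ℝ) (hμ : 1 < μ) (ε : ℝ) (hε : 0 < ε) :
    ∃ K : ℝ, 0 ≤ K ∧ ∀ (J : ℕ) (x : Fin J → ℝ) (c0 : ℝ), 0 < c0 → Meas J x μ c0 0 →
      ∀ b : Fin J → ℕ, (∀ j, 2 ≤ b j) → ∀ L : Fin J → ℕ,
      ∃ j, (1 / μ - ε) * (L j * Real.log (b j)) ≤
        ∑ i, ((complexity (b i) (x i) (L i) : ℝ) + K) * Real.log (b i) + |Real.log c0| := by
  obtain ⟨K, hK0, hK⟩ := F_linear 17 ε (by norm_num) hε
  refine ⟨K, hK0, fun J x c0 hc0 hx b hb L => ?_⟩
  have hl0 := abs_nonneg (Real.log c0)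
  obtain ⟨j, hj⟩ := multi μ c0 hμ hc0 J x hx b hb L
  refine ⟨j, ?_⟩
  have hlb0 : ∀ j, 0 ≤ Real.log (b j) := fun j =>
    Real.log_nonneg (by exact_mod_cast (by have := hb j; omega : 1 ≤ b j))
  obtain ⟨S, hS⟩ : ∃ S : ℝ, S = ∑ i, (complexity (b i) (x i) (L i) : ℝ) * Real.log (b i) :=
    ⟨_, rfl⟩
  obtain ⟨B, hB⟩ : ∃ B : ℝ, B = ∑ i, Real.log (b i) := ⟨_, rfl⟩
  have hS0 : 0 ≤ S := by
    rw [hS]; exact Finset.sum_nonneg fun i _ => mul_nonneg (Nat.cast_nonneg _) (hlb0 i)
  have hB0 : 0 ≤ B := by rw [hB]; exact Finset.sum_nonneg fun i _ => hlb0 i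
  have h1 : ∑ i, F 17 (complexity (b i) (x i) (L i)) * Real.log (b i) ≤ (1 + ε) * S + K * B := by
    rw [hS, hB, Finset.mul_sum, Finset.mul_sum, ← Finset.sum_add_distrib]
    refine Finset.sum_le_sum fun i _ => ?_
    have := mul_le_mul_of_nonneg_right (hK (complexity (b i) (x i) (L i))) (hlb0 i)
    linarith
  have h2 : ∑ i, ((complexity (b i) (x i) (L i) : ℝ) + K) * Real.log (b i) = S + K * B := by
    rw [hS, hB, Finset.mul_sum, ← Finset.sum_add_distrib]
    exact Finset.sum_congr rfl fun i _ => by ring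
  rw [h2]
  obtain ⟨Λ, hΛ⟩ : ∃ Λ : ℝ, Λ = L j * Real.log (b j) := ⟨_, rfl⟩
  rw [← hΛ] at hj ⊢
  have hΛ0 : 0 ≤ Λ := by rw [hΛ]; exact mul_nonneg (Nat.cast_nonneg _) (hlb0 j)
  have hKB : 0 ≤ K * B := mul_nonneg hK0 hB0
  rcases le_or_gt (1 / μ) ε with h3 | h3
  · have : (1 / μ - ε) * Λ ≤ 0 := mul_nonpos_of_nonpos_of_nonneg (by linarith) hΛ0
    linarith
  have hμ0 : 0 < μ := by linarith
  obtain ⟨ν, hν⟩ : ∃ ν : ℝ, ν = 1 / μ := ⟨_, rfl⟩
  have hν0 : 0 < ν := by rw [hν]; positivity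
  have hνμ : ν * μ = 1 := by rw [hν]; field_simp
  rw [← hν] at h3 ⊢
  have hκ0 : 0 < ν - ε := by linarith
  have hν1 : ν ≤ 1 := by nlinarith
  have hkey2 : (ν - ε) * μ ≤ 1 := by nlinarith
  have hkey1 : (ν - ε) * μ * (1 + ε) ≤ 1 := by
    have h4 : (ν - ε) * μ ≤ 1 - ε := by nlinarith
    have h5 : (1 - ε) * (1 + ε) ≤ 1 := by nlinarith
    have h6 := mul_le_mul_of_nonneg_right h4 (by linarith : 0 ≤ 1 + ε)
    linarith
  have hκ1 : ν - ε ≤ 1 := by linarith
  have h5 : (ν - ε) * Λ ≤ (ν - ε) * (μ * ((1 + ε) * S + K * B) + |Real.log c0|) := by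
    apply mul_le_mul_of_nonneg_left _ hκ0.le
    have := mul_le_mul_of_nonneg_left h1 hμ0.le
    linarith
  have h6 : (ν - ε) * (μ * ((1 + ε) * S + K * B) + |Real.log c0|) =
      ((ν - ε) * μ * (1 + ε)) * S + ((ν - ε) * μ) * (K * B) +
        (ν - ε) * |Real.log c0| := by ring
  have h7 : ((ν - ε) * μ * (1 + ε)) * S ≤ 1 * S :=
    mul_le_mul_of_nonneg_right hkey1 hS0
  have h8 : ((ν - ε) * μ) * (K * B) ≤ 1 * (K * B) :=
    mul_le_mul_of_nonneg_right hkey2 hKB
  have h9 : (ν - ε) * |Real.log c0| ≤ 1 * |Real.log c0| := mul_le_mul_of_nonneg_right hκ1 hl0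
  linarith

end Pool.Agent.V1189.DG
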