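import Pool.Agent.V1189.DG.Rel

/-!
# Two affine functions of `t` with coefficients in the field `ℚ(e)`

Author: helper89.
-/

set_option autoImplicit false

namespace Pool.Agent.V1189.DG

open Finset Polynomial
open Pool.Agent.W47.JL (Meas)

/-- the elements of the field `ℚ(e)` -/
def InQe (z : ℝ) : Prop :=
  ∃ p q : ℤ[X], aeval (Real.exp 1) q ≠ 0 ∧ z = aeval (Real.exp 1) p / aeval (Real.exp 1) q

lemma eval_sum (P : ℤ[X]) (n : ℕ) (h : P.natDegree < n + 1) :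
    aeval (Real.exp 1) P = ∑ i : Fin (n + 1), (P.coeff i : ℝ) * Real.exp 1 ^ (i : ℕ) := by
  rw [aeval_eq_sum_range' h, Finset.sum_range]
  refine Finset.sum_congr rfl fun i _ => ?_
  rw [zsmul_eq_mul]

lemma exists_functional (s : ℝ) (hs : ¬ ∃ r : ℚ, s = r) : ∃ φ : ℝ →ₗ[ℚ] ℚ, φ 1 = 0 ∧ φ s ≠ 0 := by
  have h : s ∉ Submodule.span ℚ ({1} : Set ℝ) := by
    intro h
    obtain ⟨r, hr⟩ := Submodule.mem_span_singleton.1 h
    exact hs ⟨r, by rw [← hr, Algebra.smul_def, mul_one]; rfl⟩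
  obtain ⟨φ, h1, h2⟩ := Submodule.exists_le_ker_of_notMem h
  exact ⟨φ, h2 (Submodule.mem_span_singleton_self 1), h1⟩

lemma phi_mul (φ : ℝ →ₗ[ℚ] ℚ) (z : ℤ) (u : ℝ) : φ ((z : ℝ) * u) = (z : ℚ) * φ u := by
  have : ((z : ℝ) * u) = (z : ℚ) • u := by rw [Algebra.smul_def]; simp
  rw [this, map_smul, smul_eq_mul]

/-- **Two affine functions of `t` over `ℚ(e)`, not affinely dependent over `ℚ`: both values are
rational or they have a simultaneous irrationality measure with an exponent which does not depend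
on `t`.** -/
theorem dich (A B A' B' : ℝ) (hA : InQe A) (hB : InQe B) (hA' : InQe A') (hB' : InQe B')
    (hA0 : A ≠ 0) (hA'0 : A' ≠ 0) (hind : ¬ ∃ r s : ℚ, A' = r * A ∧ B' = r * B + s) :
    ∃ n : ℕ, 1 ≤ n ∧ ∀ t : ℝ,
      (∃ r s : ℚ, A * t + B = r ∧ A' * t + B' = s) ∨
      ∀ η : ℝ, 0 < η → ∃ c0 : ℝ, 0 < c0 ∧ Meas 2 ![A * t + B, A' * t + B'] (n + 1 + η) c0 0 := by
  obtain ⟨pa, qa, hqa, ha⟩ := hA
  obtain ⟨pb, qb, hqb, hb⟩ := hB
  obtain ⟨pa', qa', hqa', ha'⟩ := hA'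
  obtain ⟨pb', qb', hqb', hb'⟩ := hB'
  obtain ⟨d, hd⟩ : ∃ d : ℤ[X], d = qa * qb * qa' * qb' := ⟨_, rfl⟩
  obtain ⟨D, hD⟩ : ∃ D : ℝ, D = aeval (Real.exp 1) d := ⟨_, rfl⟩
  have hD0 : D ≠ 0 := by
    rw [hD, hd]
    simp only [map_mul]
    exact mul_ne_zero (mul_ne_zero (mul_ne_zero hqa hqb) hqa') hqb'
  obtain ⟨a1, ha1⟩ : ∃ a1 : ℤ[X], a1 = pa * qb * qa' * qb' := ⟨_, rfl⟩
  obtain ⟨b1, hb1⟩ : ∃ b1 : ℤ[X], b1 = pb * qa * qa' * qb' := ⟨_, rfl⟩
  obtain ⟨a2, ha2⟩ : ∃ a2 : ℤ[X], a2 = pa' * qa * qb * qb' := ⟨_, rfl⟩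
  obtain ⟨b2, hb2⟩ : ∃ b2 : ℤ[X], b2 = pb' * qa * qb * qa' := ⟨_, rfl⟩
  have ea1 : aeval (Real.exp 1) a1 = A * D := by
    rw [ha1, hD, hd, ha]; simp only [map_mul]; field_simp
  have eb1 : aeval (Real.exp 1) b1 = B * D := by
    rw [hb1, hD, hd, hb]; simp only [map_mul]; field_simp
  have ea2 : aeval (Real.exp 1) a2 = A' * D := by
    rw [ha2, hD, hd, ha']; simp only [map_mul]; field_simp
  have eb2 : aeval (Real.exp 1) b2 = B' * D := by
    rw [hb2, hD, hd, hb']; simp only [map_mul]; field_simp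
  obtain ⟨P0, hP0⟩ : ∃ P0 : ℤ[X], P0 = a1 * b2 - a2 * b1 := ⟨_, rfl⟩
  obtain ⟨P1, hP1⟩ : ∃ P1 : ℤ[X], P1 = a2 * d := ⟨_, rfl⟩
  obtain ⟨P2, hP2⟩ : ∃ P2 : ℤ[X], P2 = - (a1 * d) := ⟨_, rfl⟩
  have e0 : aeval (Real.exp 1) P0 = (A * B' - A' * B) * D ^ 2 := by
    rw [hP0, map_sub, map_mul, map_mul, ea1, eb1, ea2, eb2]; ring
  have e1 : aeval (Real.exp 1) P1 = A' * D ^ 2 := by
    rw [hP1, map_mul, ea2, ← hD]; ring
  have e2 : aeval (Real.exp 1) P2 = - (A * D ^ 2) := by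
    rw [hP2, map_neg, map_mul, ea1, ← hD]; ring
  obtain ⟨n, hn⟩ : ∃ n : ℕ, n = P0.natDegree + P1.natDegree + P2.natDegree + 1 := ⟨_, rfl⟩
  have s0 := eval_sum P0 n (by omega)
  have s1 := eval_sum P1 n (by omega)
  have s2 := eval_sum P2 n (by omega)
  refine ⟨n, by omega, fun t => ?_⟩
  obtain ⟨u, hu⟩ : ∃ u : ℝ, u = A * t + B := ⟨_, rfl⟩
  obtain ⟨v, hv⟩ : ∃ v : ℝ, v = A' * t + B' := ⟨_, rfl⟩
  rw [← hu, ← hv]
  obtain ⟨a, hadef⟩ : ∃ a : Fin (n + 1) → Fin 3 → ℤ,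
      a = fun i : Fin (n + 1) => ![P0.coeff (i : ℕ), P1.coeff (i : ℕ), P2.coeff (i : ℕ)] := ⟨_, rfl⟩
  have hcoef : ∀ i, coef a ![u, v] i = P0.coeff i + (P1.coeff i * u + P2.coeff i * v) := by
    intro i
    rw [coef, hadef, Fin.sum_univ_two]
    simp
  have hrel : ∑ i, coef a ![u, v] i * Real.exp 1 ^ ((fun i : Fin (n + 1) => (i : ℕ)) i) = 0 := by
    have h1 : ∀ i : Fin (n + 1), coef a ![u, v] i * Real.exp 1 ^ ((fun i : Fin (n + 1) => (i : ℕ)) i) =
        (P0.coeff i : ℝ) * Real.exp 1 ^ (i : ℕ) + (u * ((P1.coeff i : ℝ) * Real.exp 1 ^ (i : ℕ)) +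
          v * ((P2.coeff i : ℝ) * Real.exp 1 ^ (i : ℕ))) := by
      intro i
      rw [hcoef]; ring
    rw [Finset.sum_congr rfl fun i _ => h1 i, Finset.sum_add_distrib, Finset.sum_add_distrib,
      ← Finset.mul_sum, ← Finset.mul_sum, ← s0, ← s1, ← s2, e0, e1, e2, hu, hv]
    ring
  by_cases hnd : ∃ i, coef a ![u, v] i ≠ 0
  · right
    intro η hη
    obtain ⟨i, hi⟩ := hnd
    obtain ⟨c0, hc0, h⟩ := rel_meas 2 n (fun i => (i : ℕ)) Fin.val_injective rfl a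
      (max |u| |v|) |coef a ![u, v] i| η (abs_pos.2 hi) hη
    exact ⟨c0, hc0, h ![u, v] (by
      intro j; fin_cases j
      · exact le_max_left _ _
      · exact le_max_right _ _) hrel ⟨i, le_rfl⟩⟩
  · left
    push Not at hnd
    -- for every functional with `φ 1 = 0`
    have key : ∀ φ : ℝ →ₗ[ℚ] ℚ, φ 1 = 0 → (φ u : ℝ) * A' = (φ v : ℝ) * A := by
      intro φ hφ
      have h1 : ∀ i : Fin (n + 1), (P1.coeff i : ℚ) * φ u + (P2.coeff i : ℚ) * φ v = 0 := by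
        intro i
        have h2 := hnd i
        rw [hcoef] at h2
        have h3 := congrArg φ h2
        rw [map_add, map_add, phi_mul, phi_mul, map_zero] at h3
        have h4 : φ (P0.coeff i : ℝ) = 0 := by
          have := phi_mul φ (P0.coeff i) 1
          rw [mul_one, hφ, mul_zero] at this
          exact this
        rw [h4, zero_add] at h3
        exact h3
      have h2 : ∀ i : Fin (n + 1), (φ u : ℝ) * ((P1.coeff i : ℝ) * Real.exp 1 ^ (i : ℕ)) +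
          (φ v : ℝ) * ((P2.coeff i : ℝ) * Real.exp 1 ^ (i : ℕ)) = 0 := by
        intro i
        have h3 : ((P1.coeff i : ℝ) * (φ u : ℝ) + (P2.coeff i : ℝ) * (φ v : ℝ)) = 0 := by
          exact_mod_cast congrArg (fun z : ℚ => (z : ℝ)) (h1 i)
        linear_combination (Real.exp 1 ^ (i : ℕ)) * h3
      have h3 : (φ u : ℝ) * aeval (Real.exp 1) P1 + (φ v : ℝ) * aeval (Real.exp 1) P2 = 0 := by
        rw [s1, s2, Finset.mul_sum, Finset.mul_sum, ← Finset.sum_add_distrib]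
        exact Finset.sum_eq_zero fun i _ => h2 i
      rw [e1, e2] at h3
      have hD2 : D ^ 2 ≠ 0 := pow_ne_zero 2 hD0
      have h4 : ((φ u : ℝ) * A' - (φ v : ℝ) * A) * D ^ 2 = 0 := by linear_combination h3
      rcases mul_eq_zero.1 h4 with h5 | h5
      · linarith
      · exact absurd h5 hD2
    have hu' : ∃ r : ℚ, u = r := by
      by_contra hcon
      obtain ⟨φ, hφ1, hφu⟩ := exists_functional u hcon
      have h1 := key φ hφ1
      obtain ⟨r, hr⟩ : ∃ r : ℚ, r = φ v / φ u := ⟨_, rfl⟩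
      have hφuR : (φ u : ℝ) ≠ 0 := by exact_mod_cast hφu
      have h2 : A' = r * A := by
        rw [hr]; push_cast
        field_simp
        linarith
      -- `v - r u` is rational
      have h3 : ∃ s : ℚ, v - r * u = s := by
        by_contra hcon2
        obtain ⟨ψ, hψ1, hψs⟩ := exists_functional _ hcon2
        apply hψs
        have h4 := key ψ hψ1
        rw [h2] at h4
        have h5 : (ψ v : ℝ) = r * ψ u := by
          have h6 : ((ψ v : ℝ) - r * ψ u) * A = 0 := by linear_combination -h4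
          rcases mul_eq_zero.1 h6 with h7 | h7
          · linarith
          · exact absurd h7 hA0
        have h6 : ψ v = r * ψ u := by exact_mod_cast h5
        have h7 : (r : ℝ) * u = r • u := by rw [Algebra.smul_def]; rfl
        rw [map_sub, h7, map_smul, smul_eq_mul, h6, sub_self]
      obtain ⟨s, hs⟩ := h3
      apply hind
      refine ⟨r, s, h2, ?_⟩
      rw [hu, hv, h2] at hs
      linear_combination hs
    have hv' : ∃ s : ℚ, v = s := by
      by_contra hcon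
      obtain ⟨φ, hφ1, hφv⟩ := exists_functional v hcon
      have h1 := key φ hφ1
      obtain ⟨r, hr⟩ := hu'
      have h2 : φ u = 0 := by
        have h3 : u = r • (1 : ℝ) := by rw [hr, Algebra.smul_def, mul_one]; rfl
        rw [h3, map_smul, hφ1, smul_zero]
      rw [h2] at h1
      have h3 : (φ v : ℝ) ≠ 0 := by exact_mod_cast hφv
      have h4 : (φ v : ℝ) * A = 0 := by
        rw [← h1]; push_cast; ring
      rcases mul_eq_zero.1 h4 with h5 | h5
      · exact h3 h5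
      · exact hA0 h5
    obtain ⟨r, hr⟩ := hu'
    obtain ⟨s, hs⟩ := hv'
    exact ⟨r, s, hr, hs⟩

end Pool.Agent.V1189.DG
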