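import Pool.Agent.V1189.DG.Rel

/-!
# The four numbers `t + e`, `t - e`, `t e`, `t / e`

Author: helper89.
-/

set_option autoImplicit false

namespace Pool.Agent.V1189.DG

open Finset Polynomial
open Pool.Agent.W47.JL (Meas)

/-- the four numbers -/
noncomputable def four (t : ℝ) : Fin 4 → ℝ :=
  ![t + Real.exp 1, t - Real.exp 1, t * Real.exp 1, t / Real.exp 1]

/-- `3` for the pairs `{t + e, t e}` and `{t - e, t e}`, `2` for the other pairs -/
def expo (i j : Fin 4) : ℕ := if (i = 2 ∧ j ≠ 3) ∨ (j = 2 ∧ i ≠ 3) then 3 else 2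

/-- bounded away from the four exceptional values `0, e, -e, ∞` -/
def Good (T δ t : ℝ) : Prop :=
  |t| ≤ T ∧ δ ≤ |t| ∧ δ ≤ |t + Real.exp 1| ∧ δ ≤ |t - Real.exp 1|

lemma swap {x y μ c0 : ℝ} (h : Meas 2 ![x, y] μ c0 0) : Meas 2 ![y, x] μ c0 0 := by
  intro q hq p
  obtain ⟨j, hj⟩ := h q hq ![p 1, p 0]
  fin_cases j
  · exact ⟨1, by simpa using hj⟩
  · exact ⟨0, by simpa using hj⟩

lemma bounds (T δ t : ℝ) (h : Good T δ t) (i : Fin 4) : |four t i| ≤ 3 * |T| + 3 := by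
  have he := Real.exp_one_lt_d9
  have he1 : 1 ≤ Real.exp 1 := Real.one_le_exp zero_le_one
  have he0 : 0 < Real.exp 1 := Real.exp_pos 1
  have ht : |t| ≤ |T| := h.1.trans (le_abs_self T)
  have hT := abs_nonneg T
  have ht0 := abs_nonneg t
  fin_cases i
  · change |t + Real.exp 1| ≤ _
    refine (abs_add_le _ _).trans ?_
    rw [abs_of_pos he0]; linarith
  · change |t - Real.exp 1| ≤ _
    refine (abs_sub _ _).trans ?_
    rw [abs_of_pos he0]; linarith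
  · change |t * Real.exp 1| ≤ _
    rw [abs_mul, abs_of_pos he0]; nlinarith
  · change |t / Real.exp 1| ≤ _
    rw [abs_div, abs_of_pos he0, div_le_iff₀ he0]; nlinarith

lemma m01 (T δ η : ℝ) (_hδ : 0 < δ) (hη : 0 < η) : ∃ c0 : ℝ, 0 < c0 ∧ ∀ t, Good T δ t →
    Meas 2 ![four t 0, four t 1] (2 + η) c0 0 := by
  obtain ⟨c0, hc0, h⟩ := rel_meas 2 1 ![0, 1] (by decide) rfl
    ![![0, 1, -1], ![-2, 0, 0]] (3 * |T| + 3) 1 η one_pos hη
  refine ⟨c0, hc0, fun t ht => ?_⟩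
  have h1 := h ![four t 0, four t 1] (by
    intro j; fin_cases j
    · exact bounds T δ t ht 0
    · exact bounds T δ t ht 1) (by
    simp [coef, Fin.sum_univ_two, four, -Real.exp_one_pow]
    ring) ⟨1, by simp [coef, Fin.sum_univ_two]⟩
  have e : ((1 : ℕ) : ℝ) + 1 + η = 2 + η := by norm_num
  rwa [e] at h1

lemma m03 (T δ η : ℝ) (hδ : 0 < δ) (hη : 0 < η) : ∃ c0 : ℝ, 0 < c0 ∧ ∀ t, Good T δ t →
    Meas 2 ![four t 0, four t 3] (2 + η) c0 0 := by
  have he0 : Real.exp 1 ≠ 0 := (Real.exp_pos 1).ne'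
  obtain ⟨c0, hc0, h⟩ := rel_meas 2 1 ![0, 1] (by decide) rfl
    ![![0, 1, 0], ![-1, 0, -1]] (3 * |T| + 3) δ η hδ hη
  refine ⟨c0, hc0, fun t ht => ?_⟩
  have h1 := h ![four t 0, four t 3] (by
    intro j; fin_cases j
    · exact bounds T δ t ht 0
    · exact bounds T δ t ht 3) (by
    simp [coef, Fin.sum_univ_two, four, -Real.exp_one_pow]
    field_simp
    ring) ⟨0, by simpa [coef, Fin.sum_univ_two, four] using ht.2.2.1⟩
  have e : ((1 : ℕ) : ℝ) + 1 + η = 2 + η := by norm_num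
  rwa [e] at h1

lemma m13 (T δ η : ℝ) (hδ : 0 < δ) (hη : 0 < η) : ∃ c0 : ℝ, 0 < c0 ∧ ∀ t, Good T δ t →
    Meas 2 ![four t 1, four t 3] (2 + η) c0 0 := by
  have he0 : Real.exp 1 ≠ 0 := (Real.exp_pos 1).ne'
  obtain ⟨c0, hc0, h⟩ := rel_meas 2 1 ![0, 1] (by decide) rfl
    ![![0, 1, 0], ![1, 0, -1]] (3 * |T| + 3) δ η hδ hη
  refine ⟨c0, hc0, fun t ht => ?_⟩
  have h1 := h ![four t 1, four t 3] (by
    intro j; fin_cases j
    · exact bounds T δ t ht 1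
    · exact bounds T δ t ht 3) (by
    simp [coef, Fin.sum_univ_two, four, -Real.exp_one_pow]
    field_simp
    ring) ⟨0, by simpa [coef, Fin.sum_univ_two, four] using ht.2.2.2⟩
  have e : ((1 : ℕ) : ℝ) + 1 + η = 2 + η := by norm_num
  rwa [e] at h1

lemma m23 (T δ η : ℝ) (hδ : 0 < δ) (hη : 0 < η) : ∃ c0 : ℝ, 0 < c0 ∧ ∀ t, Good T δ t →
    Meas 2 ![four t 2, four t 3] (2 + η) c0 0 := by
  have he0 : Real.exp 1 ≠ 0 := (Real.exp_pos 1).ne'
  have he1 : 1 ≤ Real.exp 1 := Real.one_le_exp zero_le_one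
  obtain ⟨c0, hc0, h⟩ := rel_meas 2 1 ![0, 2] (by decide) rfl
    ![![0, 1, 0], ![0, 0, -1]] (3 * |T| + 3) δ η hδ hη
  refine ⟨c0, hc0, fun t ht => ?_⟩
  have h2 : δ ≤ |t * Real.exp 1| := by
    rw [abs_mul, abs_of_pos (Real.exp_pos 1)]
    nlinarith [ht.2.1, abs_nonneg t]
  have h1 := h ![four t 2, four t 3] (by
    intro j; fin_cases j
    · exact bounds T δ t ht 2
    · exact bounds T δ t ht 3) (by
    simp [coef, Fin.sum_univ_two, four, -Real.exp_one_pow]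
    field_simp
    ring) ⟨0, by simpa [coef, Fin.sum_univ_two, four] using h2⟩
  have e : ((1 : ℕ) : ℝ) + 1 + η = 2 + η := by norm_num
  rwa [e] at h1

lemma m02 (T δ η : ℝ) (_hδ : 0 < δ) (hη : 0 < η) : ∃ c0 : ℝ, 0 < c0 ∧ ∀ t, Good T δ t →
    Meas 2 ![four t 0, four t 2] (3 + η) c0 0 := by
  obtain ⟨c0, hc0, h⟩ := rel_meas 2 2 ![0, 1, 2] (by decide) rfl
    ![![0, 0, 1], ![0, -1, 0], ![1, 0, 0]] (3 * |T| + 3) 1 η one_pos hη
  refine ⟨c0, hc0, fun t ht => ?_⟩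
  have h1 := h ![four t 0, four t 2] (by
    intro j; fin_cases j
    · exact bounds T δ t ht 0
    · exact bounds T δ t ht 2) (by
    simp [coef, Fin.sum_univ_two, Fin.sum_univ_three, four, -Real.exp_one_pow]
    ring) ⟨2, by simp [coef, Fin.sum_univ_two]⟩
  have e : ((2 : ℕ) : ℝ) + 1 + η = 3 + η := by norm_num
  rwa [e] at h1

lemma m12 (T δ η : ℝ) (_hδ : 0 < δ) (hη : 0 < η) : ∃ c0 : ℝ, 0 < c0 ∧ ∀ t, Good T δ t →
    Meas 2 ![four t 1, four t 2] (3 + η) c0 0 := by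
  obtain ⟨c0, hc0, h⟩ := rel_meas 2 2 ![0, 1, 2] (by decide) rfl
    ![![0, 0, -1], ![0, 1, 0], ![1, 0, 0]] (3 * |T| + 3) 1 η one_pos hη
  refine ⟨c0, hc0, fun t ht => ?_⟩
  have h1 := h ![four t 1, four t 2] (by
    intro j; fin_cases j
    · exact bounds T δ t ht 1
    · exact bounds T δ t ht 2) (by
    simp [coef, Fin.sum_univ_two, Fin.sum_univ_three, four, -Real.exp_one_pow]
    ring) ⟨2, by simp [coef, Fin.sum_univ_two]⟩
  have e : ((2 : ℕ) : ℝ) + 1 + η = 3 + η := by norm_num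
  rwa [e] at h1

/-- **The measures of all the pairs.** -/
theorem pair_meas (i j : Fin 4) (hij : i ≠ j) (T δ η : ℝ) (hδ : 0 < δ) (hη : 0 < η) :
    ∃ c0 : ℝ, 0 < c0 ∧ ∀ t, Good T δ t →
      Meas 2 ![four t i, four t j] ((expo i j : ℝ) + η) c0 0 := by
  have sw : ∀ {i j : Fin 4} {μ : ℝ}, (∃ c0 : ℝ, 0 < c0 ∧ ∀ t, Good T δ t →
      Meas 2 ![four t i, four t j] μ c0 0) → ∃ c0 : ℝ, 0 < c0 ∧ ∀ t, Good T δ t →
      Meas 2 ![four t j, four t i] μ c0 0 := by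
    rintro i j μ ⟨c0, hc0, h⟩
    exact ⟨c0, hc0, fun t ht => swap (h t ht)⟩
  fin_cases i <;> fin_cases j
  · exact absurd rfl hij
  · simpa [expo] using m01 T δ η hδ hη
  · simpa [expo] using m02 T δ η hδ hη
  · simpa [expo] using m03 T δ η hδ hη
  · simpa [expo] using sw (m01 T δ η hδ hη)
  · exact absurd rfl hij
  · simpa [expo] using m12 T δ η hδ hη
  · simpa [expo] using m13 T δ η hδ hη
  · simpa [expo] using sw (m02 T δ η hδ hη)
  · simpa [expo] using sw (m12 T δ η hδ hη)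
  · exact absurd rfl hij
  · simpa [expo] using m23 T δ η hδ hη
  · simpa [expo] using sw (m03 T δ η hδ hη)
  · simpa [expo] using sw (m13 T δ η hδ hη)
  · simpa [expo] using sw (m23 T δ η hδ hη)
  · exact absurd rfl hij

/-- `π` is good -/
theorem good_pi : Good 4 (1 / 10) Real.pi := by
  have h1 := Real.pi_gt_three
  have h2 := Real.pi_lt_four
  have h3 := Real.exp_one_lt_d9
  have h4 := Real.exp_one_gt_d9
  refine ⟨?_, ?_, ?_, ?_⟩
  · rw [abs_of_pos (by linarith)]; linarith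
  · rw [abs_of_pos (by linarith)]; linarith
  · rw [abs_of_pos (by linarith)]; linarith
  · rw [abs_of_pos (by linarith)]; linarith

end Pool.Agent.V1189.DG
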