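import Pool.Agent.V1189.DG.Four
import Pool.Agent.V1189.DG.Dich

/-!
# The inequalities for pairs of numbers

Author: helper89.
-/

set_option autoImplicit false

namespace Pool.Agent.V1189.DG

open Finset Polynomial
open Pool.Agent.W47.JL (Meas)
open Pool.Agent.Results.MP_a49cf6_nt.DigitRecurrences (digit Recurrence complexity jointComplexity
  F changes general many_changes)

/-- two numbers, each in its own base -/
theorem pair_linear (μ₀ : ℝ) (hμ₀ : 2 ≤ μ₀) (P : ℝ → ℝ → Prop)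
    (h : ∀ η : ℝ, 0 < η → ∃ c0 : ℝ, 0 < c0 ∧ ∀ x y, P x y → Meas 2 ![x, y] (μ₀ + η) c0 0)
    (ε : ℝ) (hε : 0 < ε) :
    ∃ C : ℝ, 0 < C ∧ ∀ x y, P x y → ∀ b c : ℕ, 2 ≤ b → 2 ≤ c → ∀ L M : ℕ,
      (1 / μ₀ - ε) * min (L * Real.log b) (M * Real.log c) ≤
        ((complexity b x L : ℝ) + C) * Real.log b + ((complexity c y M : ℝ) + C) * Real.log c := by
  obtain ⟨C, hC0, hC⟩ := multi_linear μ₀ hμ₀ 2 (fun z => P (z 0) (z 1)) (by
    intro η hη
    obtain ⟨c0, hc0, hm⟩ := h η hη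
    refine ⟨c0, hc0, fun z hz => ?_⟩
    have := hm _ _ hz
    have e : ![z 0, z 1] = z := by
      ext i; fin_cases i <;> rfl
    rwa [e] at this) ε hε
  refine ⟨C, hC0, fun x y hxy b c hb hc L M => ?_⟩
  have hlb : 0 < Real.log b := Real.log_pos (by exact_mod_cast (by omega : 1 < b))
  have hlc : 0 < Real.log c := Real.log_pos (by exact_mod_cast (by omega : 1 < c))
  obtain ⟨j, hj⟩ := hC ![x, y] hxy ![b, c] (by intro j; fin_cases j <;> assumption) ![L, M]
  rw [Fin.sum_univ_two] at hj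
  simp only [Matrix.cons_val_zero, Matrix.cons_val_one] at hj
  have hmin0 : 0 ≤ min ((L : ℝ) * Real.log b) (M * Real.log c) :=
    le_min (mul_nonneg (Nat.cast_nonneg _) hlb.le) (mul_nonneg (Nat.cast_nonneg _) hlc.le)
  rcases le_or_gt 0 (1 / μ₀ - ε) with h1 | h1
  · fin_cases j
    · exact (mul_le_mul_of_nonneg_left (min_le_left _ _) h1).trans hj
    · exact (mul_le_mul_of_nonneg_left (min_le_right _ _) h1).trans hj
  · have h2 : (1 / μ₀ - ε) * min ((L : ℝ) * Real.log b) (M * Real.log c) ≤ 0 :=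
      mul_nonpos_of_nonpos_of_nonneg h1.le hmin0
    have h3 : 0 ≤ ((complexity b x L : ℝ) + C) * Real.log b := by positivity
    have h4 : 0 ≤ ((complexity c y M : ℝ) + C) * Real.log c := by positivity
    linarith

lemma expo_ge (i j : Fin 4) : (2 : ℝ) ≤ expo i j := by
  unfold expo
  split_ifs <;> norm_num

/-- the four numbers, each in its own base -/
theorem four_linear (i j : Fin 4) (hij : i ≠ j) (T δ ε : ℝ) (hδ : 0 < δ) (hε : 0 < ε) :
    ∃ C : ℝ, 0 < C ∧ ∀ t, Good T δ t → ∀ b c : ℕ, 2 ≤ b → 2 ≤ c → ∀ L M : ℕ,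
      (1 / expo i j - ε) * min (L * Real.log b) (M * Real.log c) ≤
        ((complexity b (four t i) L : ℝ) + C) * Real.log b +
          ((complexity c (four t j) M : ℝ) + C) * Real.log c := by
  obtain ⟨C, hC0, hC⟩ := pair_linear (expo i j) (expo_ge i j)
    (fun x y => ∃ t, Good T δ t ∧ x = four t i ∧ y = four t j) (by
      intro η hη
      obtain ⟨c0, hc0, h⟩ := pair_meas i j hij T δ η hδ hη
      refine ⟨c0, hc0, ?_⟩
      rintro x y ⟨t, ht, rfl, rfl⟩
      exact h t ht) ε hε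
  exact ⟨C, hC0, fun t ht b c hb hc L M => hC _ _ ⟨t, ht, rfl, rfl⟩ b c hb hc L M⟩

/-- one base: errors and changes of digits -/
theorem four_joint (i j : Fin 4) (hij : i ≠ j) (T δ μ : ℝ) (hδ : 0 < δ) (hμ : expo i j < μ) :
    ∃ C : ℝ, 0 < C ∧ ∀ t, Good T δ t → ∀ b : ℕ, 2 ≤ b →
      (∀ k L : ℕ, (L : ℝ) ≤ (∑ l ∈ range (k + 1), μ ^ (l + 1)) *
        F C (jointComplexity b ![four t i, four t j] k L)) ∧
      ∀ M : ℕ, 1 ≤ M →
        Real.log M / Real.log μ - C ≤ changes b (four t i) (four t j) M := by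
  have h2 := expo_ge i j
  obtain ⟨c0, hc0, h⟩ := pair_meas i j hij T δ ((μ - expo i j) / 2) hδ (by linarith)
  have hμ' : (1 : ℝ) < expo i j + (μ - expo i j) / 2 := by linarith
  have hμ'' : (expo i j : ℝ) + (μ - expo i j) / 2 < μ := by linarith
  obtain ⟨C1, hC1, h3⟩ := general ((expo i j : ℝ) + (μ - expo i j) / 2) c0 hμ' hc0
  obtain ⟨C2, h4⟩ := many_changes ((expo i j : ℝ) + (μ - expo i j) / 2) c0 hμ' hc0 μ hμ''
  refine ⟨max C1 C2, lt_max_of_lt_left hC1, fun t ht b hb => ⟨fun k L => ?_, fun M hM => ?_⟩⟩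
  · have h5 := (h3 2 _ (h t ht) b hb L).1 k
    refine h5.trans ?_
    have hF : F C1 (jointComplexity b ![four t i, four t j] k L) ≤
        F (max C1 C2) (jointComplexity b ![four t i, four t j] k L) := by
      unfold F
      have := Real.sqrt_nonneg ((((jointComplexity b ![four t i, four t j] k L : ℕ) : ℝ) + 1) *
        Real.log (((jointComplexity b ![four t i, four t j] k L : ℕ) : ℝ) + 2))
      have h6 := mul_le_mul_of_nonneg_right (le_max_left C1 C2) this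
      linarith
    have hF0 : 0 ≤ F (max C1 C2) (jointComplexity b ![four t i, four t j] k L) := by
      unfold F
      have h7 : 0 ≤ max C1 C2 := hC1.le.trans (le_max_left _ _)
      positivity
    refine mul_le_mul ?_ hF ?_ (Finset.sum_nonneg fun l _ => pow_nonneg (by linarith) _)
    · refine Finset.sum_le_sum fun l _ => ?_
      exact pow_le_pow_left₀ (by linarith) hμ''.le _
    · unfold F; positivity
  · have h5 := h4 _ (h t ht) b hb M hM
    simp only [Matrix.cons_val_zero, Matrix.cons_val_one] at h5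
    have h6 := le_max_right C1 C2
    linarith

/-- the four numbers for `t = π` -/
theorem four_pi (i j : Fin 4) (hij : i ≠ j) (ε : ℝ) (hε : 0 < ε) :
    ∃ L₀ : ℕ, ∀ b : ℕ, 2 ≤ b → ∀ L : ℕ, L₀ ≤ L →
      (1 / (2 * expo i j) - ε) * L ≤ complexity b (four Real.pi i) L ∨
      (1 / (2 * expo i j) - ε) * L ≤ complexity b (four Real.pi j) L := by
  obtain ⟨C, hC0, hC⟩ := four_linear i j hij 4 (1 / 10) ε (by norm_num) hε
  obtain ⟨L₀, hL₀⟩ := exists_nat_gt (2 * C / ε)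
  refine ⟨L₀, fun b hb L hL => ?_⟩
  have hlb : 0 < Real.log b := Real.log_pos (by exact_mod_cast (by omega : 1 < b))
  have h1 := hC Real.pi good_pi b b hb hb L L
  rw [min_self] at h1
  have h2 : (1 / expo i j - ε) * L ≤ (complexity b (four Real.pi i) L : ℝ) + C +
      ((complexity b (four Real.pi j) L : ℝ) + C) := by
    have h3 : ((1 / expo i j - ε) * L) * Real.log b ≤ ((complexity b (four Real.pi i) L : ℝ) + C +
      ((complexity b (four Real.pi j) L : ℝ) + C)) * Real.log b := by linarith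
    exact le_of_mul_le_mul_right h3 hlb
  have hLR : (L₀ : ℝ) ≤ L := by exact_mod_cast hL
  have h4 : 2 * C / ε < L := hL₀.trans_le hLR
  rw [div_lt_iff₀ hε] at h4
  by_contra hcon
  push Not at hcon
  have h5 := expo_ge i j
  have h6 : (1 : ℝ) / expo i j = 2 * (1 / (2 * expo i j)) := by field_simp
  rw [h6] at h2
  nlinarith [hcon.1, hcon.2]

/-- affine functions over `ℚ(e)` -/
theorem dich_linear (A B A' B' : ℝ) (hA : InQe A) (hB : InQe B) (hA' : InQe A') (hB' : InQe B')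
    (hA0 : A ≠ 0) (hA'0 : A' ≠ 0) (hind : ¬ ∃ r s : ℚ, A' = r * A ∧ B' = r * B + s) :
    ∃ κ : ℝ, 0 < κ ∧ ∀ t : ℝ,
      (∃ r s : ℚ, A * t + B = r ∧ A' * t + B' = s) ∨
      ∃ C : ℝ, 0 < C ∧ ∀ b c : ℕ, 2 ≤ b → 2 ≤ c → ∀ L M : ℕ,
        κ * min (L * Real.log b) (M * Real.log c) ≤
          ((complexity b (A * t + B) L : ℝ) + C) * Real.log b +
            ((complexity c (A' * t + B') M : ℝ) + C) * Real.log c := by
  obtain ⟨n, hn, h⟩ := dich A B A' B' hA hB hA' hB' hA0 hA'0 hind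
  have hn1 : (1 : ℝ) ≤ n := by exact_mod_cast hn
  refine ⟨1 / ((n : ℝ) + 1) - 1 / (2 * ((n : ℝ) + 1)), ?_, fun t => ?_⟩
  · have : 1 / ((n : ℝ) + 1) - 1 / (2 * ((n : ℝ) + 1)) = 1 / (2 * ((n : ℝ) + 1)) := by
      field_simp; norm_num
    rw [this]; positivity
  rcases h t with h1 | h1
  · exact Or.inl h1
  · right
    obtain ⟨C, hC0, hC⟩ := pair_linear ((n : ℝ) + 1) (by linarith)
      (fun x y => x = A * t + B ∧ y = A' * t + B') (by
        intro η hη
        obtain ⟨c0, hc0, h2⟩ := h1 η hη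
        refine ⟨c0, hc0, ?_⟩
        rintro x y ⟨rfl, rfl⟩
        exact h2) (1 / (2 * ((n : ℝ) + 1))) (by positivity)
    exact ⟨C, hC0, fun b c hb hc L M => hC _ _ ⟨rfl, rfl⟩ b c hb hc L M⟩

/-- several numbers in a relation with integer coefficients and `n + 1` powers of `e` -/
theorem rel_linear (J n : ℕ) (hn : 1 ≤ n) (k : Fin (n + 1) → ℕ) (hk : Function.Injective k)
    (hk0 : k 0 = 0) (a : Fin (n + 1) → Fin (J + 1) → ℤ) (T δ ε : ℝ) (hδ : 0 < δ) (hε : 0 < ε) :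
    ∃ C : ℝ, 0 < C ∧ ∀ y : Fin J → ℝ, (∀ j, |y j| ≤ T) →
      ∑ i, coef a y i * Real.exp 1 ^ k i = 0 → (∃ i, δ ≤ |coef a y i|) →
      ∀ b : Fin J → ℕ, (∀ j, 2 ≤ b j) → ∀ L : Fin J → ℕ,
        ∃ j, (1 / ((n : ℝ) + 1) - ε) * (L j * Real.log (b j)) ≤
          ∑ i, ((complexity (b i) (y i) (L i) : ℝ) + C) * Real.log (b i) := by
  have hn1 : (1 : ℝ) ≤ n := by exact_mod_cast hn
  obtain ⟨C, hC0, hC⟩ := multi_linear ((n : ℝ) + 1) (by linarith) J
    (fun y => (∀ j, |y j| ≤ T) ∧ ∑ i, coef a y i * Real.exp 1 ^ k i = 0 ∧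
      ∃ i, δ ≤ |coef a y i|) (by
      intro η hη
      obtain ⟨c0, hc0, h⟩ := rel_meas J n k hk hk0 a T δ η hδ hη
      exact ⟨c0, hc0, fun y hy => h y hy.1 hy.2.1 hy.2.2⟩) ε hε
  exact ⟨C, hC0, fun y h1 h2 h3 b hb L => hC y ⟨h1, h2, h3⟩ b hb L⟩

end Pool.Agent.V1189.DG
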