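import Pool.Agent.V1189.DG.Approx

/-!
# Simultaneous irrationality measures from relations over `ℤ[e]`

Author: helper89. The measure of linear independence of powers of `e` is that of the starting library
(`Pool.Agent.W472.AC.e_meas`, helper472).
-/

set_option autoImplicit false

namespace Pool.Agent.V1189.DG

open Finset Polynomial

/-- the coefficient of `e ^ (k i)` -/
noncomputable def coef {J n : ℕ} (a : Fin (n + 1) → Fin (J + 1) → ℤ) (y : Fin J → ℝ)
    (i : Fin (n + 1)) : ℝ := a i 0 + ∑ j : Fin J, (a i j.succ : ℝ) * y j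

/-- **A nondegenerate relation with `n + 1` powers of `e` gives the simultaneous measure `n + 1 + η`.** -/
theorem rel_meas (J n : ℕ) (k : Fin (n + 1) → ℕ) (hk : Function.Injective k) (hk0 : k 0 = 0)
    (a : Fin (n + 1) → Fin (J + 1) → ℤ) (T δ η : ℝ) (hδ : 0 < δ) (hη : 0 < η) :
    ∃ c0 : ℝ, 0 < c0 ∧ ∀ y : Fin J → ℝ, (∀ j, |y j| ≤ T) →
      ∑ i, coef a y i * Real.exp 1 ^ k i = 0 → (∃ i, δ ≤ |coef a y i|) →
      Pool.Agent.W47.JL.Meas J y (n + 1 + η) c0 0 := by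
  obtain ⟨c1, hc1, hm⟩ := Pool.Agent.W472.AC.e_meas n (fun i => (k i : ℤ))
    (fun i j hij => hk (by
      have h : ((k i : ℕ) : ℤ) = ((k j : ℕ) : ℤ) := hij
      exact_mod_cast h)) (by simp [hk0]) (fun i => by positivity) η hη
  obtain ⟨A, hA⟩ : ∃ A : ℝ, A = ∑ i, (|(a i 0 : ℝ)| + ∑ j : Fin J, |(a i j.succ : ℝ)|) := ⟨_, rfl⟩
  have hAi0 : ∀ i, 0 ≤ |(a i 0 : ℝ)| + ∑ j : Fin J, |(a i j.succ : ℝ)| := fun i =>
    add_nonneg (abs_nonneg _) (Finset.sum_nonneg fun _ _ => abs_nonneg _)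
  have hAi : ∀ i, |(a i 0 : ℝ)| + ∑ j : Fin J, |(a i j.succ : ℝ)| ≤ A := by
    intro i
    rw [hA]
    exact Finset.single_le_sum (f := fun i => |(a i 0 : ℝ)| + ∑ j : Fin J, |(a i j.succ : ℝ)|)
      (fun i _ => hAi0 i) (mem_univ i)
  have hA0 : 0 ≤ A := (hAi0 0).trans (hAi 0)
  have hAs : ∀ i, ∑ j : Fin J, |(a i j.succ : ℝ)| ≤ A := fun i => by
    have h1 := hAi i
    have h2 := abs_nonneg (a i 0 : ℝ)
    linarith
  obtain ⟨M, hM⟩ : ∃ M : ℝ, M = A * (|T| + 1) + 1 := ⟨_, rfl⟩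
  have hT0 := abs_nonneg T
  have hM1 : 1 ≤ M := by rw [hM]; nlinarith
  obtain ⟨E, hE⟩ : ∃ E : ℝ, E = A * (∑ i, Real.exp 1 ^ k i) + 1 := ⟨_, rfl⟩
  have hes : 0 ≤ ∑ i, Real.exp 1 ^ k i := Finset.sum_nonneg fun _ _ => by positivity
  have hE1 : 1 ≤ E := by rw [hE]; nlinarith
  have hMp : 0 < M ^ ((n : ℝ) + η) := Real.rpow_pos_of_pos (by linarith) _
  obtain ⟨c0, hc0⟩ : ∃ c0 : ℝ,
      c0 = min (min 1 (δ / (2 * (A + 1)))) (c1 / (2 * E * M ^ ((n : ℝ) + η))) := ⟨_, rfl⟩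
  have hc00 : 0 < c0 := by
    rw [hc0]
    exact lt_min (lt_min one_pos (by positivity)) (by positivity)
  refine ⟨c0, hc00, fun y hy hrel hnd => ?_⟩
  intro q hq p
  by_contra hcon
  push Not at hcon
  have hqR : (1 : ℝ) ≤ q := by exact_mod_cast hq
  have hq0 : (0 : ℝ) < q := by linarith
  have hexp : (n : ℝ) + 1 + η - 1 = n + η := by ring
  simp only [Real.rpow_zero, mul_one, hexp] at hcon
  obtain ⟨Q, hQ⟩ : ∃ Q : ℝ, Q = (q : ℝ) ^ ((n : ℝ) + η) := ⟨_, rfl⟩
  have hQ1 : 1 ≤ Q := by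
    rw [hQ]
    exact Real.one_le_rpow hqR (by positivity)
  have hδ' : ∀ j, |q * y j - p j| < c0 / Q := by
    intro j
    rw [lt_div_iff₀ (by linarith), mul_comm]
    have := hcon j
    rwa [← hQ] at this
  have hc0le1 : c0 ≤ 1 := by rw [hc0]; exact (min_le_left _ _).trans (min_le_left _ _)
  have hc0le2 : c0 ≤ δ / (2 * (A + 1)) := by
    rw [hc0]; exact (min_le_left _ _).trans (min_le_right _ _)
  have hcQ : c0 / Q ≤ c0 := div_le_self hc00.le hQ1
  have hδ1 : ∀ j, |q * y j - p j| ≤ 1 := fun j => (hδ' j).le.trans (hcQ.trans hc0le1)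
  have hp : ∀ j, |(p j : ℝ)| ≤ q * (|T| + 1) := by
    intro j
    have h1 : (p j : ℝ) = q * y j - (q * y j - p j) := by ring
    rw [h1]
    refine (abs_sub _ _).trans ?_
    rw [abs_mul, abs_of_pos hq0]
    have h2 := (hy j).trans (le_abs_self T)
    have h3 := hδ1 j
    nlinarith
  -- the integers
  obtain ⟨z, hz⟩ : ∃ z : Fin (n + 1) → ℤ, z = fun i => a i 0 * q + ∑ j : Fin J, a i j.succ * p j :=
    ⟨_, rfl⟩
  have hzi : ∀ i, (z i : ℝ) = q * coef a y i - ∑ j : Fin J, (a i j.succ : ℝ) * (q * y j - p j) := by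
    intro i
    rw [hz, coef]
    push_cast
    rw [mul_add, Finset.mul_sum, add_sub_assoc, ← Finset.sum_sub_distrib]
    congr 1
    · ring
    · exact Finset.sum_congr rfl fun j _ => by ring
  have herr : ∀ i, |∑ j : Fin J, (a i j.succ : ℝ) * (q * y j - p j)| ≤ A * (c0 / Q) := by
    intro i
    refine (Finset.abs_sum_le_sum_abs _ _).trans ?_
    have h1 : ∀ j : Fin J, |(a i j.succ : ℝ) * (q * y j - p j)| ≤ |(a i j.succ : ℝ)| * (c0 / Q) := by
      intro j
      rw [abs_mul]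
      exact mul_le_mul_of_nonneg_left (hδ' j).le (abs_nonneg _)
    refine (Finset.sum_le_sum fun j _ => h1 j).trans ?_
    rw [← Finset.sum_mul]
    exact mul_le_mul_of_nonneg_right (hAs i) (by positivity)
  have hz0 : z ≠ 0 := by
    obtain ⟨i, hi⟩ := hnd
    intro h0
    have h1 := hzi i
    rw [h0, Pi.zero_apply, Int.cast_zero] at h1
    have h2 : (q : ℝ) * coef a y i = ∑ j : Fin J, (a i j.succ : ℝ) * (q * y j - p j) := by
      linarith
    have h3 := herr i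
    rw [← h2, abs_mul, abs_of_pos hq0] at h3
    have h4 : δ ≤ q * |coef a y i| := by nlinarith [abs_nonneg (coef a y i)]
    have h5 : A * (c0 / Q) ≤ A * (δ / (2 * (A + 1))) :=
      mul_le_mul_of_nonneg_left (hcQ.trans hc0le2) hA0
    have h6 : A * (δ / (2 * (A + 1))) ≤ δ / 2 := by
      rw [mul_div_assoc', div_le_div_iff₀ (by positivity) (by norm_num)]
      nlinarith
    linarith
  have hzH : ∀ i, |(z i : ℝ)| ≤ q * M := by
    intro i
    rw [hz]
    push_cast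
    refine (abs_add_le _ _).trans ?_
    have h1 : |(a i 0 : ℝ) * q| ≤ |(a i 0 : ℝ)| * (q * (|T| + 1)) := by
      rw [abs_mul, abs_of_pos hq0]
      exact mul_le_mul_of_nonneg_left (by nlinarith) (abs_nonneg _)
    have h2 : |∑ j : Fin J, (a i j.succ : ℝ) * p j| ≤
        (∑ j : Fin J, |(a i j.succ : ℝ)|) * (q * (|T| + 1)) := by
      refine (Finset.abs_sum_le_sum_abs _ _).trans ?_
      rw [Finset.sum_mul]
      refine Finset.sum_le_sum fun j _ => ?_
      rw [abs_mul]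
      exact mul_le_mul_of_nonneg_left (hp j) (abs_nonneg _)
    have h3 : (|(a i 0 : ℝ)| + ∑ j : Fin J, |(a i j.succ : ℝ)|) * (q * (|T| + 1)) ≤
        A * (q * (|T| + 1)) := mul_le_mul_of_nonneg_right (hAi i) (by positivity)
    have h4 : A * (q * (|T| + 1)) ≤ q * M := by rw [hM]; nlinarith
    nlinarith
  have hval : ∑ i, (z i : ℝ) * Real.exp (((k i : ℕ) : ℤ) : ℝ) =
      -∑ i, (∑ j : Fin J, (a i j.succ : ℝ) * (q * y j - p j)) * Real.exp 1 ^ k i := by
    have h1 : ∀ i, (z i : ℝ) * Real.exp (((k i : ℕ) : ℤ) : ℝ) =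
        q * (coef a y i * Real.exp 1 ^ k i) -
          (∑ j : Fin J, (a i j.succ : ℝ) * (q * y j - p j)) * Real.exp 1 ^ k i := by
      intro i
      rw [hzi i]
      have h2 : Real.exp (((k i : ℕ) : ℤ) : ℝ) = Real.exp 1 ^ k i := by
        rw [Int.cast_natCast, Real.exp_one_pow]
      rw [h2]
      ring
    rw [Finset.sum_congr rfl fun i _ => h1 i, Finset.sum_sub_distrib, ← Finset.mul_sum, hrel]
    ring
  have hsmall : |∑ i, (z i : ℝ) * Real.exp (((k i : ℕ) : ℤ) : ℝ)| ≤ E * (c0 / Q) := by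
    rw [hval, abs_neg]
    refine (Finset.abs_sum_le_sum_abs _ _).trans ?_
    have h1 : ∀ i, |(∑ j : Fin J, (a i j.succ : ℝ) * (q * y j - p j)) * Real.exp 1 ^ k i| ≤
        (A * (c0 / Q)) * Real.exp 1 ^ k i := by
      intro i
      rw [abs_mul, abs_of_pos (by positivity : 0 < Real.exp 1 ^ k i)]
      exact mul_le_mul_of_nonneg_right (herr i) (by positivity)
    refine (Finset.sum_le_sum fun i _ => h1 i).trans ?_
    rw [← Finset.mul_sum, hE]
    have h2 : 0 ≤ c0 / Q := by positivity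
    nlinarith
  have hqM : 1 ≤ (q : ℝ) * M := by nlinarith
  have hfin := hm z hz0 (q * M) hqM hzH
  rw [Real.mul_rpow hq0.le (by linarith), ← hQ] at hfin
  have h9 : c1 ≤ Q * M ^ ((n : ℝ) + η) * (E * (c0 / Q)) :=
    hfin.trans (mul_le_mul_of_nonneg_left hsmall (by positivity))
  have h10 : Q * M ^ ((n : ℝ) + η) * (E * (c0 / Q)) = M ^ ((n : ℝ) + η) * E * c0 := by
    field_simp
  rw [h10] at h9
  have h11 : c0 ≤ c1 / (2 * E * M ^ ((n : ℝ) + η)) := by rw [hc0]; exact min_le_right _ _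
  rw [le_div_iff₀ (by positivity)] at h11
  nlinarith

end Pool.Agent.V1189.DG
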