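import Pool.Agent.V1189.DG.Pairs

/-!
# Linear forms in `t` and powers of `e` with rational coefficients

Author: helper89. The measure of linear independence of powers of `e` is that of the starting library
(`Pool.Agent.W472.AC.e_meas`, helper472).
-/

set_option autoImplicit false

namespace Pool.Agent.V1189.DG

open Finset
open Pool.Agent.W47.JL (Meas)
open Pool.Agent.Results.MP_a49cf6_nt.DigitRecurrences (complexity F F_linear)

/-- height at most `H` -/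
def Low (H : ℕ) (r : ℚ) : Prop := |r.num| ≤ H ∧ r.den ≤ H

/-- `A t + B + ∑ r_i e ^ (k_i)` -/
noncomputable def form {n : ℕ} (k : Fin n → ℕ) (t : ℝ) (A B : ℚ) (r : Fin n → ℚ) : ℝ :=
  A * t + B + ∑ i, (r i : ℝ) * Real.exp 1 ^ k i

/-- clearing denominators -/
lemma clear {n : ℕ} (H : ℕ) (hH : 1 ≤ H) (A B : ℚ) (r : Fin n → ℚ) (hA : Low H A) (hB : Low H B)
    (hr : ∀ i, Low H (r i)) :
    ∃ (D : ℕ) (α β : ℤ) (ρ : Fin n → ℤ), 1 ≤ D ∧ (D : ℝ) ≤ (H : ℝ) ^ (n + 3) ∧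
      (D : ℚ) * A = α ∧ (D : ℚ) * B = β ∧ (∀ i, (D : ℚ) * r i = ρ i) ∧
      |(α : ℝ)| ≤ (H : ℝ) ^ (n + 3) ∧ |(β : ℝ)| ≤ (H : ℝ) ^ (n + 3) ∧
      ∀ i, |(ρ i : ℝ)| ≤ (H : ℝ) ^ (n + 3) := by
  classical
  obtain ⟨D, hD⟩ : ∃ D : ℕ, D = A.den * B.den * ∏ i, (r i).den := ⟨_, rfl⟩
  have hHR : (1 : ℝ) ≤ H := by exact_mod_cast hH
  have hprod : ∏ i, (r i).den ≤ H ^ n := by
    calc ∏ i, (r i).den ≤ ∏ _i : Fin n, H := Finset.prod_le_prod' fun i _ => (hr i).2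
      _ = H ^ n := by simp
  have hD1 : 1 ≤ D := by
    rw [hD]
    refine Nat.one_le_iff_ne_zero.2 ?_
    refine mul_ne_zero (mul_ne_zero A.den_nz B.den_nz) ?_
    exact Finset.prod_ne_zero_iff.2 fun i _ => (r i).den_nz
  have hDH : D ≤ H ^ (n + 2) := by
    rw [hD]
    calc A.den * B.den * ∏ i, (r i).den ≤ H * H * H ^ n :=
          Nat.mul_le_mul (Nat.mul_le_mul hA.2 hB.2) hprod
      _ = H ^ (n + 2) := by ring
  have hDHR : (D : ℝ) ≤ (H : ℝ) ^ (n + 2) := by exact_mod_cast hDH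
  have hmain : ∀ q : ℚ, Low H q → q.den ∣ D → ∃ z : ℤ, (D : ℚ) * q = z ∧
      |(z : ℝ)| ≤ (H : ℝ) ^ (n + 3) := by
    intro q hq hdvd
    obtain ⟨m, hm⟩ := hdvd
    have h1 : (D : ℚ) * q = ((m * q.num : ℤ) : ℚ) := by
      have h2 : q * q.den = q.num := Rat.mul_den_eq_num q
      rw [hm]; push_cast
      calc (q.den : ℚ) * m * q = m * (q * q.den) := by ring
        _ = m * q.num := by rw [h2]
    refine ⟨m * q.num, h1, ?_⟩
    have hmD : m ≤ D := by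
      rw [hm]
      exact Nat.le_mul_of_pos_left m q.den_pos
    have h3 : |((q.num : ℤ) : ℝ)| ≤ H := by exact_mod_cast hq.1
    push_cast
    rw [abs_mul, Nat.abs_cast, show n + 3 = (n + 2) + 1 by ring, pow_succ]
    have h4 : (m : ℝ) ≤ (H : ℝ) ^ (n + 2) := le_trans (by exact_mod_cast hmD) hDHR
    exact mul_le_mul h4 h3 (abs_nonneg _) (by positivity)
  obtain ⟨α, hα, hα'⟩ := hmain A hA (by rw [hD]; exact ⟨B.den * ∏ i, (r i).den, by ring⟩)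
  obtain ⟨β, hβ, hβ'⟩ := hmain B hB (by
    rw [hD]; exact ⟨A.den * ∏ i, (r i).den, by ring⟩)
  have hρ := fun i => hmain (r i) (hr i) (by
    rw [hD]
    exact Dvd.dvd.mul_left (Finset.dvd_prod_of_mem _ (mem_univ i)) _)
  choose ρ hρ1 hρ2 using hρ
  refine ⟨D, α, β, ρ, hD1, hDHR.trans ?_, hα, hβ, hρ1, hα', hβ', hρ2⟩
  exact pow_le_pow_right₀ hHR (by omega)

/-- **The measure for two forms.** -/
theorem form_meas (n : ℕ) (k : Fin n → ℕ) (hk : Function.Injective k) (hk0 : ∀ i, k i ≠ 0)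
    (η : ℝ) (hη : 0 < η) (hη1 : η ≤ 1) :
    ∃ c2 : ℝ, 0 < c2 ∧ ∀ (t : ℝ) (H : ℕ), 1 ≤ H → ∀ (A B A' B' : ℚ) (r r' : Fin n → ℚ),
      Low H A → Low H B → Low H A' → Low H B' → (∀ i, Low H (r i)) → (∀ i, Low H (r' i)) →
      (∃ i, A' * r i ≠ A * r' i) →
      Meas 2 ![form k t A B r, form k t A' B' r'] (n + 1 + η)
        (c2 / (H : ℝ) ^ ((n + 3) * (2 * n + 4))) 0 := by
  classical
  obtain ⟨c1, hc1, hm⟩ := Pool.Agent.W472.AC.e_meas n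
    (Fin.cons 0 (fun i => ((k i : ℕ) : ℤ)) : Fin (n + 1) → ℤ) (by
      rw [Fin.cons_injective_iff]
      refine ⟨?_, fun i j hij => hk (by
        have h : ((k i : ℕ) : ℤ) = k j := hij
        exact_mod_cast h)⟩
      rintro ⟨i, hi⟩
      have h : ((k i : ℕ) : ℤ) = 0 := hi
      exact hk0 i (by exact_mod_cast h)) (by simp) (by
      intro i
      refine Fin.cases (by simp) (fun j => ?_) i
      simp) η hη
  obtain ⟨E, hE⟩ : ∃ E : ℝ, E = ∑ i, Real.exp 1 ^ k i := ⟨_, rfl⟩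
  have hE0 : 0 ≤ E := by rw [hE]; exact Finset.sum_nonneg fun _ _ => by positivity
  obtain ⟨W, hW⟩ : ∃ W : ℝ, W = (2 * (E + 1)) ^ ((n : ℝ) + η) := ⟨_, rfl⟩
  have hW0 : 0 < W := by rw [hW]; exact Real.rpow_pos_of_pos (by linarith) _
  obtain ⟨c2, hc2⟩ : ∃ c2 : ℝ, c2 = min 1 (c1 / (4 * W)) := ⟨_, rfl⟩
  have hc20 : 0 < c2 := by rw [hc2]; exact lt_min one_pos (by positivity)
  refine ⟨c2, hc20, fun t H hH A B A' B' r r' hA hB hA' hB' hr hr' hne => ?_⟩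
  obtain ⟨G, hG⟩ : ∃ G : ℝ, G = (H : ℝ) ^ (n + 3) := ⟨_, rfl⟩
  have hHR : (1 : ℝ) ≤ H := by exact_mod_cast hH
  have hG1 : 1 ≤ G := by rw [hG]; exact one_le_pow₀ hHR
  obtain ⟨D, α, β, ρ, hD1, hDG, hα, hβ, hρ, hα', hβ', hρ'⟩ := clear H hH A B r hA hB hr
  obtain ⟨D₂, α₂, β₂, ρ₂, hD₂1, hD₂G, hα₂, hβ₂, hρ₂, hα₂', hβ₂', hρ₂'⟩ :=
    clear H hH A' B' r' hA' hB' hr'
  rw [← hG] at hDG hα' hβ' hρ' hD₂G hα₂' hβ₂' hρ₂'
  have hx : (D : ℝ) * form k t A B r = α * t + β + ∑ i, (ρ i : ℝ) * Real.exp 1 ^ k i := by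
    unfold form
    have h1 : (D : ℝ) * (A : ℝ) = α := by exact_mod_cast congrArg (fun q : ℚ => (q : ℝ)) hα
    have h2 : (D : ℝ) * (B : ℝ) = β := by exact_mod_cast congrArg (fun q : ℚ => (q : ℝ)) hβ
    rw [mul_add, mul_add, ← mul_assoc, h1, h2, Finset.mul_sum]
    congr 1
    refine Finset.sum_congr rfl fun i _ => ?_
    have h3 : (D : ℝ) * (r i : ℝ) = ρ i := by
      exact_mod_cast congrArg (fun q : ℚ => (q : ℝ)) (hρ i)
    rw [← mul_assoc, h3]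
  have hy : (D₂ : ℝ) * form k t A' B' r' = α₂ * t + β₂ + ∑ i, (ρ₂ i : ℝ) * Real.exp 1 ^ k i := by
    unfold form
    have h1 : (D₂ : ℝ) * (A' : ℝ) = α₂ := by exact_mod_cast congrArg (fun q : ℚ => (q : ℝ)) hα₂
    have h2 : (D₂ : ℝ) * (B' : ℝ) = β₂ := by exact_mod_cast congrArg (fun q : ℚ => (q : ℝ)) hβ₂
    rw [mul_add, mul_add, ← mul_assoc, h1, h2, Finset.mul_sum]
    congr 1
    refine Finset.sum_congr rfl fun i _ => ?_
    have h3 : (D₂ : ℝ) * (r' i : ℝ) = ρ₂ i := by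
      exact_mod_cast congrArg (fun q : ℚ => (q : ℝ)) (hρ₂ i)
    rw [← mul_assoc, h3]
  obtain ⟨i0, hi0⟩ := hne
  have hne' : α₂ * ρ i0 ≠ α * ρ₂ i0 := by
    intro h
    apply hi0
    have hDQ : (D : ℚ) ≠ 0 := by exact_mod_cast (by omega : D ≠ 0)
    have hD₂Q : (D₂ : ℚ) ≠ 0 := by exact_mod_cast (by omega : D₂ ≠ 0)
    have h1 : ((α₂ : ℤ) : ℚ) * (ρ i0 : ℤ) = (α : ℤ) * (ρ₂ i0 : ℤ) := by exact_mod_cast h
    rw [← hα₂, ← hα, ← hρ, ← hρ₂] at h1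
    have h2 : ((D : ℚ) * D₂) * (A' * r i0) = ((D : ℚ) * D₂) * (A * r' i0) := by
      linear_combination h1
    exact mul_left_cancel₀ (mul_ne_zero hDQ hD₂Q) h2
  obtain ⟨x, hxd⟩ : ∃ x, x = form k t A B r := ⟨_, rfl⟩
  obtain ⟨y, hyd⟩ : ∃ y, y = form k t A' B' r' := ⟨_, rfl⟩
  rw [← hxd] at hx
  rw [← hyd] at hy
  rw [← hxd, ← hyd]
  intro q hq p
  by_contra hcon
  push Not at hcon
  have hqR : (1 : ℝ) ≤ q := by exact_mod_cast hq
  have hq0 : (0 : ℝ) < q := by linarith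
  have hexp : (n : ℝ) + 1 + η - 1 = n + η := by ring
  simp only [Real.rpow_zero, mul_one, hexp] at hcon
  obtain ⟨Q, hQ⟩ : ∃ Q : ℝ, Q = (q : ℝ) ^ ((n : ℝ) + η) := ⟨_, rfl⟩
  have hQ1 : 1 ≤ Q := by
    rw [hQ]
    exact Real.one_le_rpow hqR (by positivity)
  obtain ⟨c0, hc0⟩ : ∃ c0 : ℝ, c0 = c2 / (H : ℝ) ^ ((n + 3) * (2 * n + 4)) := ⟨_, rfl⟩
  have hGH : (H : ℝ) ^ ((n + 3) * (2 * n + 4)) = G ^ (2 * n + 4) := by
    rw [hG, pow_mul]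
  rw [hGH] at hc0 hcon
  have hGp : 1 ≤ G ^ (2 * n + 4) := one_le_pow₀ hG1
  have hc00 : 0 < c0 := by rw [hc0]; positivity
  have hc01 : c0 ≤ 1 := by
    rw [hc0]
    refine (div_le_self hc20.le hGp).trans ?_
    rw [hc2]; exact min_le_left _ _
  rw [← hc0, ← hQ] at hcon
  have hd : ∀ j, |(q : ℝ) * (![x, y] j) - p j| < c0 / Q := by
    intro j
    rw [lt_div_iff₀ (by linarith), mul_comm]
    exact hcon j
  have hdx : |(q : ℝ) * x - p 0| < c0 / Q := by simpa using hd 0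
  have hdy : |(q : ℝ) * y - p 1| < c0 / Q := by simpa using hd 1
  have hcQ : c0 / Q ≤ 1 := (div_le_self hc00.le hQ1).trans hc01
  have hcQ0 : 0 < c0 / Q := by positivity
  obtain ⟨z0, hz0⟩ : ∃ z0 : ℤ, z0 = q * (α₂ * β - α * β₂) - (α₂ * D * p 0 - α * D₂ * p 1) :=
    ⟨_, rfl⟩
  obtain ⟨z, hz⟩ : ∃ z : Fin n → ℤ, z = fun i => q * (α₂ * ρ i - α * ρ₂ i) := ⟨_, rfl⟩
  obtain ⟨S, hS⟩ : ∃ S : ℝ, S = ∑ i, (z i : ℝ) * Real.exp 1 ^ k i := ⟨_, rfl⟩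
  have hSv : S = q * (α₂ * ∑ i, (ρ i : ℝ) * Real.exp 1 ^ k i -
      α * ∑ i, (ρ₂ i : ℝ) * Real.exp 1 ^ k i) := by
    rw [hS, hz, Finset.mul_sum, Finset.mul_sum, ← Finset.sum_sub_distrib, Finset.mul_sum]
    refine Finset.sum_congr rfl fun i _ => ?_
    push_cast
    ring
  obtain ⟨X, hX⟩ : ∃ X : ℝ, X = ∑ i, (ρ i : ℝ) * Real.exp 1 ^ k i := ⟨_, rfl⟩
  obtain ⟨Y, hY⟩ : ∃ Y : ℝ, Y = ∑ i, (ρ₂ i : ℝ) * Real.exp 1 ^ k i := ⟨_, rfl⟩
  rw [← hX] at hx hSv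
  rw [← hY] at hy hSv
  have hsum : (z0 : ℝ) + S = α₂ * D * (q * x - p 0) - α * D₂ * (q * y - p 1) := by
    rw [hSv, hz0]
    push_cast
    linear_combination (-(α₂ : ℝ) * q) * hx + ((α : ℝ) * q) * hy
  have hprodG : ∀ u v : ℝ, |u| ≤ G → |v| ≤ G → |u * v| ≤ G ^ 2 := by
    intro u v hu hv
    rw [abs_mul, sq]
    exact mul_le_mul hu hv (abs_nonneg _) (by linarith)
  have hDabs : |(D : ℝ)| ≤ G := by rw [Nat.abs_cast]; exact hDG
  have hD₂abs : |(D₂ : ℝ)| ≤ G := by rw [Nat.abs_cast]; exact hD₂G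
  have hsmall : |(z0 : ℝ) + S| ≤ 2 * G ^ 2 * (c0 / Q) := by
    rw [hsum]
    refine (abs_sub _ _).trans ?_
    rw [abs_mul, abs_mul (((α : ℝ)) * D₂)]
    have h1 := mul_le_mul (hprodG _ _ hα₂' hDabs) hdx.le (abs_nonneg _) (by positivity)
    have h2 := mul_le_mul (hprodG _ _ hα' hD₂abs) hdy.le (abs_nonneg _) (by positivity)
    linarith
  have hzi : ∀ i, |(z i : ℝ)| ≤ 2 * G ^ 2 * q := by
    intro i
    rw [hz]
    push_cast
    rw [abs_mul, abs_of_pos hq0]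
    have h1 : |(α₂ : ℝ) * ρ i - α * ρ₂ i| ≤ 2 * G ^ 2 := by
      refine (abs_sub _ _).trans ?_
      have h2 := hprodG _ _ hα₂' (hρ' i)
      have h3 := hprodG _ _ hα' (hρ₂' i)
      linarith
    rw [mul_comm (2 * G ^ 2)]
    exact mul_le_mul_of_nonneg_left h1 hq0.le
  have hSabs : |S| ≤ 2 * G ^ 2 * q * E := by
    rw [hS, hE, Finset.mul_sum]
    refine (Finset.abs_sum_le_sum_abs _ _).trans (Finset.sum_le_sum fun i _ => ?_)
    rw [abs_mul, abs_of_pos (by positivity : 0 < Real.exp 1 ^ k i)]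
    exact mul_le_mul_of_nonneg_right (hzi i) (by positivity)
  have hG2 : 1 ≤ G ^ 2 := one_le_pow₀ hG1
  have hz0abs : |(z0 : ℝ)| ≤ q * (G ^ 2 * (2 * (E + 1))) := by
    have h1 : (z0 : ℝ) = (z0 + S) - S := by ring
    rw [h1]
    refine (abs_sub _ _).trans ?_
    have h2 : 2 * G ^ 2 * (c0 / Q) ≤ 2 * G ^ 2 * q := by
      apply mul_le_mul_of_nonneg_left _ (by positivity)
      linarith
    have h3 : 2 * G ^ 2 * q * E + 2 * G ^ 2 * q = q * (G ^ 2 * (2 * (E + 1))) := by ring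
    linarith
  have hziabs : ∀ i, |(z i : ℝ)| ≤ q * (G ^ 2 * (2 * (E + 1))) := by
    intro i
    have h3 : 2 * G ^ 2 * q * E + 2 * G ^ 2 * q = q * (G ^ 2 * (2 * (E + 1))) := by ring
    have h4 : 0 ≤ 2 * G ^ 2 * q * E := by positivity
    linarith [hzi i]
  obtain ⟨w, hw⟩ : ∃ w : Fin (n + 1) → ℤ, w = Fin.cons z0 z := ⟨_, rfl⟩
  have hw0 : w ≠ 0 := by
    intro h0
    have h1 : w i0.succ = 0 := by rw [h0]; rfl
    rw [hw, Fin.cons_succ, hz] at h1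
    have h2 : (q : ℤ) ≠ 0 := by exact_mod_cast (by omega : q ≠ 0)
    rcases mul_eq_zero.1 h1 with h3 | h3
    · exact h2 h3
    · exact hne' (by linarith)
  have hqM : 1 ≤ (q : ℝ) * (G ^ 2 * (2 * (E + 1))) := by
    have h1 : 1 ≤ G ^ 2 * (2 * (E + 1)) := one_le_mul_of_one_le_of_one_le hG2 (by linarith)
    exact one_le_mul_of_one_le_of_one_le hqR h1
  have hfin := hm w hw0 (q * (G ^ 2 * (2 * (E + 1)))) hqM (by
    intro i
    rw [hw]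
    refine Fin.cases ?_ (fun j => ?_) i
    · rw [Fin.cons_zero]; exact hz0abs
    · rw [Fin.cons_succ]; exact hziabs j)
  have hval : ∑ i, (w i : ℝ) * Real.exp (((Fin.cons 0 (fun i => ((k i : ℕ) : ℤ)) :
      Fin (n + 1) → ℤ) i : ℤ) : ℝ) = z0 + S := by
    rw [Fin.sum_univ_succ, hw, hS]
    simp only [Fin.cons_zero, Fin.cons_succ, Int.cast_zero, Real.exp_zero, mul_one]
    congr 1
    refine Finset.sum_congr rfl fun i _ => ?_
    rw [Int.cast_natCast, Real.exp_one_pow]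
  have hfin' : c1 ≤ ((q : ℝ) * (G ^ 2 * (2 * (E + 1)))) ^ ((n : ℝ) + η) * |(z0 : ℝ) + S| := by
    rw [← hval]; exact hfin
  rw [Real.mul_rpow hq0.le (by positivity), Real.mul_rpow (by positivity) (by linarith), ← hQ,
    ← hW] at hfin'
  have hGr : (G ^ 2) ^ ((n : ℝ) + η) ≤ G ^ (2 * n + 2) := by
    have h1 : (G ^ 2) ^ ((n : ℝ) + η) ≤ (G ^ 2) ^ (((n + 1 : ℕ) : ℝ)) := by
      apply Real.rpow_le_rpow_of_exponent_le hG2
      push_cast; linarith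
    rw [Real.rpow_natCast, ← pow_mul] at h1
    have e : 2 * (n + 1) = 2 * n + 2 := by ring
    rwa [e] at h1
  have hGr0 : 0 < (G ^ 2) ^ ((n : ℝ) + η) := Real.rpow_pos_of_pos (by positivity) _
  have h9 : c1 ≤ Q * ((G ^ 2) ^ ((n : ℝ) + η) * W) * (2 * G ^ 2 * (c0 / Q)) :=
    hfin'.trans (mul_le_mul_of_nonneg_left hsmall (by positivity))
  have h10 : Q * ((G ^ 2) ^ ((n : ℝ) + η) * W) * (2 * G ^ 2 * (c0 / Q)) =
      (G ^ 2) ^ ((n : ℝ) + η) * (2 * W * G ^ 2 * c0) := by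
    field_simp
  rw [h10] at h9
  have h11 : (G ^ 2) ^ ((n : ℝ) + η) * (2 * W * G ^ 2 * c0) ≤
      G ^ (2 * n + 2) * (2 * W * G ^ 2 * c0) :=
    mul_le_mul_of_nonneg_right hGr (by positivity)
  have h12 : G ^ (2 * n + 2) * (2 * W * G ^ 2 * c0) = 2 * W * c2 := by
    rw [hc0, show 2 * n + 4 = (2 * n + 2) + 2 by ring, pow_add G (2 * n + 2) 2]
    field_simp
  have h13 : c2 ≤ c1 / (4 * W) := by rw [hc2]; exact min_le_right _ _
  rw [le_div_iff₀ (by positivity)] at h13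
  rw [h12] at h11
  have h14 := h9.trans h11
  have h15 : 2 * W * c2 = (c2 * (4 * W)) / 2 := by ring
  linarith

end Pool.Agent.V1189.DG
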