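import Pool.Agent.V1189.DG.Shift
import Pool.Agent.V1189.DG.Scale

/-!
# Linear complexity of the forms

Author: helper89.
-/

set_option autoImplicit false

namespace Pool.Agent.V1189.DG

open Finset
open Pool.Agent.W47.JL (Meas)
open Pool.Agent.Results.MP_a49cf6_nt.DigitRecurrences (complexity F F_linear)

lemma meas_mono {J : ℕ} {x : Fin J → ℝ} {μ ν c0 : ℝ} (h : Meas J x μ c0 0) (hμν : μ ≤ ν) :
    Meas J x ν c0 0 := by
  intro q hq p
  obtain ⟨j, hj⟩ := h q hq p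
  refine ⟨j, hj.trans ?_⟩
  have hqR : (1 : ℝ) ≤ q := by exact_mod_cast hq
  simp only [Real.rpow_zero, mul_one]
  exact mul_le_mul_of_nonneg_right (Real.rpow_le_rpow_of_exponent_le hqR (by linarith))
    (abs_nonneg _)

/-- linear form of the inequality, with the constant of the measure -/
theorem linear_of (μ₀ : ℝ) (hμ₀ : 2 ≤ μ₀) (ε : ℝ) (hε : 0 < ε) :
    ∃ K : ℝ, 0 ≤ K ∧ ∀ (J : ℕ) (x : Fin J → ℝ) (c0 : ℝ), 0 < c0 → Meas J x (μ₀ + ε / 2) c0 0 →
      ∀ b : Fin J → ℕ, (∀ j, 2 ≤ b j) → ∀ L : Fin J → ℕ,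
      ∃ j, (1 / μ₀ - ε) * (L j * Real.log (b j)) ≤
        ∑ i, ((complexity (b i) (x i) (L i) : ℝ) + K) * Real.log (b i) + |Real.log c0| := by
  obtain ⟨K, hK0, hK⟩ := F_linear 17 (ε / 2) (by norm_num) (by linarith)
  refine ⟨K, hK0, fun J x c0 hc0 hx b hb L => ?_⟩
  have hl0 := abs_nonneg (Real.log c0)
  obtain ⟨j, hj⟩ := multi (μ₀ + ε / 2) c0 (by linarith) hc0 J x hx b hb L
  refine ⟨j, ?_⟩
  have hlb0 : ∀ j, 0 ≤ Real.log (b j) := fun j =>
    Real.log_nonneg (by exact_mod_cast (by have := hb j; omega : 1 ≤ b j))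
  obtain ⟨S, hS⟩ : ∃ S : ℝ, S = ∑ i, (complexity (b i) (x i) (L i) : ℝ) * Real.log (b i) :=
    ⟨_, rfl⟩
  obtain ⟨B, hB⟩ : ∃ B : ℝ, B = ∑ i, Real.log (b i) := ⟨_, rfl⟩
  have hS0 : 0 ≤ S := by
    rw [hS]; exact Finset.sum_nonneg fun i _ => mul_nonneg (Nat.cast_nonneg _) (hlb0 i)
  have hB0 : 0 ≤ B := by rw [hB]; exact Finset.sum_nonneg fun i _ => hlb0 i
  have h1 : ∑ i, F 17 (complexity (b i) (x i) (L i)) * Real.log (b i) ≤ (1 + ε / 2) * S + K * B := by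
    rw [hS, hB, Finset.mul_sum, Finset.mul_sum, ← Finset.sum_add_distrib]
    refine Finset.sum_le_sum fun i _ => ?_
    have := mul_le_mul_of_nonneg_right (hK (complexity (b i) (x i) (L i))) (hlb0 i)
    linarith
  have h2 : ∑ i, ((complexity (b i) (x i) (L i) : ℝ) + K) * Real.log (b i) = S + K * B := by
    rw [hS, hB, Finset.mul_sum, ← Finset.sum_add_distrib]
    exact Finset.sum_congr rfl fun i _ => by ring
  rw [h2]
  obtain ⟨Λ, hΛ⟩ : ∃ Λ : ℝ, Λ = L j * Real.log (b j) := ⟨_, rfl⟩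
  rw [← hΛ] at hj ⊢
  have hΛ0 : 0 ≤ Λ := by rw [hΛ]; exact mul_nonneg (Nat.cast_nonneg _) (hlb0 j)
  have hKB : 0 ≤ K * B := mul_nonneg hK0 hB0
  rcases le_or_gt (1 / μ₀) ε with h3 | h3
  · have : (1 / μ₀ - ε) * Λ ≤ 0 := mul_nonpos_of_nonpos_of_nonneg (by linarith) hΛ0
    linarith
  have hμ0 : 0 < μ₀ := by linarith
  obtain ⟨ν, hν⟩ : ∃ ν : ℝ, ν = 1 / μ₀ := ⟨_, rfl⟩
  have hν0 : 0 < ν := by rw [hν]; positivity
  have hν2 : ν ≤ 1 / 2 := by
    rw [hν]; exact one_div_le_one_div_of_le (by norm_num) hμ₀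
  have hνμ : ν * μ₀ = 1 := by rw [hν]; field_simp
  rw [← hν] at h3 ⊢
  have hκ0 : 0 < ν - ε := by linarith
  have hkey : (ν - ε) * (μ₀ + ε / 2) ≤ 1 - ε := by nlinarith
  have hkey1 : (ν - ε) * (μ₀ + ε / 2) * (1 + ε / 2) ≤ 1 := by
    have h4 : (1 - ε) * (1 + ε / 2) ≤ 1 := by nlinarith
    have h5 := mul_le_mul_of_nonneg_right hkey (by linarith : 0 ≤ 1 + ε / 2)
    linarith
  have hkey2 : (ν - ε) * (μ₀ + ε / 2) ≤ 1 := by linarith
  have hκ1 : ν - ε ≤ 1 := by linarith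
  have h5 : (ν - ε) * Λ ≤ (ν - ε) * ((μ₀ + ε / 2) * ((1 + ε / 2) * S + K * B) + |Real.log c0|) := by
    apply mul_le_mul_of_nonneg_left _ hκ0.le
    have := mul_le_mul_of_nonneg_left h1 (by linarith : 0 ≤ μ₀ + ε / 2)
    linarith
  have h6 : (ν - ε) * ((μ₀ + ε / 2) * ((1 + ε / 2) * S + K * B) + |Real.log c0|) =
      ((ν - ε) * (μ₀ + ε / 2) * (1 + ε / 2)) * S + ((ν - ε) * (μ₀ + ε / 2)) * (K * B) +
        (ν - ε) * |Real.log c0| := by ring
  have h7 : ((ν - ε) * (μ₀ + ε / 2) * (1 + ε / 2)) * S ≤ 1 * S :=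
    mul_le_mul_of_nonneg_right hkey1 hS0
  have h8 : ((ν - ε) * (μ₀ + ε / 2)) * (K * B) ≤ 1 * (K * B) :=
    mul_le_mul_of_nonneg_right hkey2 hKB
  have h9 : (ν - ε) * |Real.log c0| ≤ 1 * |Real.log c0| := mul_le_mul_of_nonneg_right hκ1 hl0
  linarith

/-- **two forms** -/
theorem form_linear (n : ℕ) (hn : 1 ≤ n) (k : Fin n → ℕ) (hk : Function.Injective k)
    (hk0 : ∀ i, k i ≠ 0) (ε : ℝ) (hε : 0 < ε) :
    ∃ C : ℝ, 0 < C ∧ ∀ (t : ℝ) (H : ℕ), 1 ≤ H → ∀ (A B A' B' : ℚ) (r r' : Fin n → ℚ),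
      Low H A → Low H B → Low H A' → Low H B' → (∀ i, Low H (r i)) → (∀ i, Low H (r' i)) →
      (∃ i, A' * r i ≠ A * r' i) → ∀ b c : ℕ, 2 ≤ b → 2 ≤ c → ∀ L M : ℕ,
      (1 / ((n : ℝ) + 1) - ε) * min (L * Real.log b) (M * Real.log c) ≤
        ((complexity b (form k t A B r) L : ℝ) + C) * Real.log b +
          ((complexity c (form k t A' B' r') M : ℝ) + C) * Real.log c +
          2 * (n + 3) * (n + 2) * Real.log H := by
  have hn1 : (1 : ℝ) ≤ n := by exact_mod_cast hn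
  have hη : 0 < min (ε / 2) 1 := lt_min (by linarith) one_pos
  obtain ⟨c2, hc2, hm⟩ := form_meas n k hk hk0 (min (ε / 2) 1) hη (min_le_right _ _)
  obtain ⟨K, hK0, hK⟩ := linear_of ((n : ℝ) + 1) (by linarith) ε hε
  have hl2 := abs_nonneg (Real.log c2)
  refine ⟨K + |Real.log c2| + 1, by linarith, fun t H hH A B A' B' r r' h1 h2 h3 h4 h5 h6 h7 b c
    hb hc L M => ?_⟩
  have hHR : (1 : ℝ) ≤ H := by exact_mod_cast hH
  have hlH : 0 ≤ Real.log H := Real.log_nonneg hHR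
  have hmeas := meas_mono (hm t H hH A B A' B' r r' h1 h2 h3 h4 h5 h6 h7)
    (by linarith [min_le_left (ε / 2) 1] : (n : ℝ) + 1 + min (ε / 2) 1 ≤ (n : ℝ) + 1 + ε / 2)
  have hHp : (0 : ℝ) < (H : ℝ) ^ ((n + 3) * (2 * n + 4)) := by positivity
  obtain ⟨x, hx⟩ : ∃ x, x = form k t A B r := ⟨_, rfl⟩
  obtain ⟨y, hy⟩ : ∃ y, y = form k t A' B' r' := ⟨_, rfl⟩
  rw [← hx, ← hy] at hmeas
  rw [← hx, ← hy]
  obtain ⟨j, hj⟩ := hK 2 ![x, y] _ (div_pos hc2 hHp) hmeas ![b, c]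
    (by intro j; fin_cases j <;> assumption) ![L, M]
  have hlog : |Real.log (c2 / (H : ℝ) ^ ((n + 3) * (2 * n + 4)))| ≤
      |Real.log c2| + 2 * (n + 3) * (n + 2) * Real.log H := by
    rw [Real.log_div hc2.ne' hHp.ne', Real.log_pow]
    refine (abs_sub _ _).trans ?_
    rw [abs_of_nonneg (by positivity : 0 ≤ (((n + 3) * (2 * n + 4) : ℕ) : ℝ) * Real.log H)]
    push_cast
    linarith
  have hlb : 0.69 ≤ Real.log b := by
    have h1 := Real.log_two_gt_d9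
    have h2 : Real.log 2 ≤ Real.log b :=
      Real.log_le_log (by norm_num) (by exact_mod_cast hb)
    linarith
  have hlc : 0.69 ≤ Real.log c := by
    have h1 := Real.log_two_gt_d9
    have h2 : Real.log 2 ≤ Real.log c :=
      Real.log_le_log (by norm_num) (by exact_mod_cast hc)
    linarith
  rw [Fin.sum_univ_two] at hj
  simp only [Matrix.cons_val_zero, Matrix.cons_val_one] at hj
  have hmin0 : 0 ≤ min ((L : ℝ) * Real.log b) (M * Real.log c) :=
    le_min (mul_nonneg (Nat.cast_nonneg _) (by linarith))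
      (mul_nonneg (Nat.cast_nonneg _) (by linarith))
  have hN1 : (0 : ℝ) ≤ complexity b x L := Nat.cast_nonneg _
  have hN2 : (0 : ℝ) ≤ complexity c y M := Nat.cast_nonneg _
  have hP : 0 ≤ 2 * ((n : ℝ) + 3) * (n + 2) * Real.log H := by positivity
  have hrhs : ((complexity b x L : ℝ) + K) * Real.log b + ((complexity c y M : ℝ) + K) * Real.log c +
      |Real.log (c2 / (H : ℝ) ^ ((n + 3) * (2 * n + 4)))| ≤
      ((complexity b x L : ℝ) + (K + |Real.log c2| + 1)) * Real.log b +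
        ((complexity c y M : ℝ) + (K + |Real.log c2| + 1)) * Real.log c +
        2 * (n + 3) * (n + 2) * Real.log H := by
    have e1 : |Real.log c2| ≤ (|Real.log c2| + 1) * Real.log b + (|Real.log c2| + 1) * Real.log c := by
      nlinarith
    have e2 : ((complexity b x L : ℝ) + (K + |Real.log c2| + 1)) * Real.log b +
        ((complexity c y M : ℝ) + (K + |Real.log c2| + 1)) * Real.log c =
        ((complexity b x L : ℝ) + K) * Real.log b + ((complexity c y M : ℝ) + K) * Real.log c +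
        ((|Real.log c2| + 1) * Real.log b + (|Real.log c2| + 1) * Real.log c) := by ring
    rw [e2]
    linarith
  rcases le_or_gt 0 (1 / ((n : ℝ) + 1) - ε) with h8 | h8
  · refine le_trans ?_ (hj.trans hrhs)
    fin_cases j
    · exact mul_le_mul_of_nonneg_left (min_le_left _ _) h8
    · exact mul_le_mul_of_nonneg_left (min_le_right _ _) h8
  · have h9 : (1 / ((n : ℝ) + 1) - ε) * min ((L : ℝ) * Real.log b) (M * Real.log c) ≤ 0 :=
      mul_nonpos_of_nonpos_of_nonneg h8.le hmin0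
    have h10 : 0 ≤ ((complexity b x L : ℝ) + (K + |Real.log c2| + 1)) * Real.log b :=
      mul_nonneg (by linarith) (by linarith)
    have h11 : 0 ≤ ((complexity c y M : ℝ) + (K + |Real.log c2| + 1)) * Real.log c :=
      mul_nonneg (by linarith) (by linarith)
    linarith

/-- `x` has small linear complexity at the scale `Λ`, in some base which is not too large -/
def Small (ν K Λ x : ℝ) : Prop :=
  ∃ b L : ℕ, 2 ≤ b ∧ K * Real.log b ≤ Λ ∧ Λ ≤ L * Real.log b ∧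
    complexity b x L * Real.log b < ν * Λ

/-- **one direction at every scale** -/
theorem unique (n : ℕ) (hn : 1 ≤ n) (k : Fin n → ℕ) (hk : Function.Injective k)
    (hk0 : ∀ i, k i ≠ 0) (ε : ℝ) (hε : 0 < ε) :
    ∃ K δ : ℝ, 0 < K ∧ 0 < δ ∧ ∀ (t Λ : ℝ) (H : ℕ), (H : ℝ) ≤ Real.exp (δ * Λ) →
      ∀ (A B A' B' : ℚ) (r r' : Fin n → ℚ),
      Low H A → Low H B → Low H A' → Low H B' → (∀ i, Low H (r i)) → (∀ i, Low H (r' i)) →
      Small (1 / (2 * ((n : ℝ) + 1)) - ε) K Λ (form k t A B r) →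
      Small (1 / (2 * ((n : ℝ) + 1)) - ε) K Λ (form k t A' B' r') →
      ∀ i, A' * r i = A * r' i := by
  obtain ⟨C, hC0, hC⟩ := form_linear n hn k hk hk0 (ε / 2) (by linarith)
  have hn0 : (0 : ℝ) ≤ n := Nat.cast_nonneg n
  obtain ⟨P, hP⟩ : ∃ P : ℝ, P = 2 * ((n : ℝ) + 3) * (n + 2) := ⟨_, rfl⟩
  have hP0 : 0 < P := by rw [hP]; positivity
  refine ⟨4 * C / ε, ε / (2 * P), by positivity, by positivity, fun t Λ H hH A B A' B' r r' h1 h2
    h3 h4 h5 h6 h7 h8 => ?_⟩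
  by_contra hne
  push Not at hne
  obtain ⟨b, L, hb, hKb, hLb, hNb⟩ := h7
  obtain ⟨c, M, hc, hKc, hMc, hNc⟩ := h8
  have hlb : 0 < Real.log b := Real.log_pos (by exact_mod_cast (by omega : 1 < b))
  have hlc : 0 < Real.log c := Real.log_pos (by exact_mod_cast (by omega : 1 < c))
  have hΛ : 0 < Λ := lt_of_lt_of_le (by positivity) hKb
  have hH1 : 1 ≤ H := by
    have h9 := h1.2
    have h10 := A.den_pos
    omega
  have hlH : Real.log H ≤ ε / (2 * P) * Λ := by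
    have h9 := Real.log_le_log (by exact_mod_cast (by omega : 0 < H)) hH
    rwa [Real.log_exp] at h9
  have hPH : P * Real.log H ≤ ε / 2 * Λ := by
    have h9 := mul_le_mul_of_nonneg_left hlH hP0.le
    have h10 : P * (ε / (2 * P) * Λ) = ε / 2 * Λ := by field_simp
    linarith
  have h9 := hC t H hH1 A B A' B' r r' h1 h2 h3 h4 h5 h6 hne b c hb hc L M
  rw [← hP] at h9
  have hCb : 2 * C * Real.log b ≤ ε / 2 * Λ := by
    have e : 4 * C / ε * Real.log b = 4 * C * Real.log b / ε := by ring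
    rw [e, div_le_iff₀ hε] at hKb
    linarith
  have hCc : 2 * C * Real.log c ≤ ε / 2 * Λ := by
    have e : 4 * C / ε * Real.log c = 4 * C * Real.log c / ε := by ring
    rw [e, div_le_iff₀ hε] at hKc
    linarith
  obtain ⟨ν, hν⟩ : ∃ ν : ℝ, ν = 1 / (2 * ((n : ℝ) + 1)) := ⟨_, rfl⟩
  have hν2 : 1 / ((n : ℝ) + 1) = 2 * ν := by rw [hν]; field_simp
  rw [hν2] at h9
  rw [← hν] at hNb hNc
  have hN1 : (0 : ℝ) ≤ complexity b (form k t A B r) L * Real.log b := by positivity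
  rcases le_or_gt (2 * ν) (ε / 2) with h10 | h10
  · have h11 : (ν - ε) * Λ ≤ 0 := mul_nonpos_of_nonpos_of_nonneg (by linarith) hΛ.le
    linarith
  have h11 : (2 * ν - ε / 2) * Λ ≤ (2 * ν - ε / 2) * min (L * Real.log b) (M * Real.log c) :=
    mul_le_mul_of_nonneg_left (le_min hLb hMc) (by linarith)
  nlinarith

end Pool.Agent.V1189.DG
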